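import Pool.Agent.TotallySkew.Defs

/-!
Tools for totally skew embeddings: a chain rule for the vector valued derivative of a map that
factors through a normed space, and a criterion for total skewness on compact manifolds.
-/

open scoped Manifold ContDiff

namespace Pool.Agent.TotallySkew

/-- Chain rule for the vector valued derivative of a map that factors through a normed space. -/
theorem mvfderiv_comp_of_hasFDerivAt {E₀ H M E F : Type*} [NormedAddCommGroup E₀]
    [NormedSpace ℝ E₀] [TopologicalSpace H] {I : ModelWithCorners ℝ E₀ H} [TopologicalSpace M]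
    [ChartedSpace H M] [NormedAddCommGroup E] [NormedSpace ℝ E] [NormedAddCommGroup F]
    [NormedSpace ℝ F] {ι : M → E} {Φ : E → F} {x : M} {Φ' : E →L[ℝ] F}
    (hΦ : HasFDerivAt Φ Φ' (ι x)) (hι : MDifferentiableAt I 𝓘(ℝ, E) ι x)
    (u : TangentSpace I x) :
    mvfderiv I (fun p => Φ (ι p)) x u = Φ' (mvfderiv I ι x u) := by
  have h1 : HasMFDerivAt I 𝓘(ℝ, F) (Φ ∘ ι) x _ :=
    HasMFDerivAt.comp x hΦ.hasMFDerivAt hι.hasMFDerivAt
  have h2 := h1.mfderiv
  change (mfderiv I 𝓘(ℝ, F) (Φ ∘ ι) x) u = _
  rw [h2]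
  rfl

/-- Criterion for a totally skew embedding of a compact manifold: the map
`(t, u, v) ↦ t (φ x - φ y) + dφ_x u + dφ_y v` is injective for all `x ≠ y`, and `dφ` is
injective. -/
theorem isTotallySkewEmbedding_of_compact {E H M F : Type*} [NormedAddCommGroup E]
    [NormedSpace ℝ E] [TopologicalSpace H] {I : ModelWithCorners ℝ E H} [TopologicalSpace M]
    [CompactSpace M] [ChartedSpace H M] [NormedAddCommGroup F] [NormedSpace ℝ F] {φ : M → F}
    (hφ : ContMDiff I 𝓘(ℝ, F) ∞ φ)
    (hinj : ∀ x (u : TangentSpace I x), mvfderiv I φ x u = 0 → u = 0)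
    (hskew : ∀ x y, x ≠ y → ∀ (t : ℝ) (u : TangentSpace I x) (v : TangentSpace I y),
      t • (φ x - φ y) + mvfderiv I φ x u + mvfderiv I φ y v = 0 →
        t = 0 ∧ mvfderiv I φ x u = 0) :
    IsTotallySkewEmbedding I φ := by
  have hinj' : Function.Injective φ := by
    intro x y hxy
    by_contra hne
    have h := hskew x y hne 1 0 0 (by simp [hxy])
    exact one_ne_zero h.1
  refine ⟨hφ, (hφ.continuous.isClosedEmbedding hinj').isEmbedding, ?_, ?_⟩
  · intro x
    exact (injective_iff_map_eq_zero (mvfderiv I φ x)).2 (hinj x)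
  · intro x y hxy
    unfold affineTangent
    constructor
    · rw [disjoint_iff, ← AffineSubspace.coe_eq_bot_iff, Set.eq_empty_iff_forall_notMem]
      intro w hw
      obtain ⟨hw1, hw2⟩ := (AffineSubspace.mem_inf_iff w _ _).1 hw
      rw [AffineSubspace.mem_mk'] at hw1 hw2
      obtain ⟨u, hu⟩ := hw1
      obtain ⟨v, hv⟩ := hw2
      have hu' : mvfderiv I φ x u = w - φ x := hu
      have hv' : mvfderiv I φ y v = w - φ y := hv
      have h := hskew x y hxy 1 u (-v) (by
        rw [map_neg, hu', hv']
        simp)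
      exact one_ne_zero h.1
    · rw [AffineSubspace.direction_mk', AffineSubspace.direction_mk', Submodule.disjoint_def]
      rintro w ⟨u, rfl⟩ ⟨v, hv⟩
      have h := hskew x y hxy 0 u (-v) (by
        rw [map_neg]
        have hv' : mvfderiv I φ y v = mvfderiv I φ x u := hv
        rw [hv']
        simp)
      exact h.2

end Pool.Agent.TotallySkew
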