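import Pool.Agent.TotallySkew.Tools

/-!
The smooth structure pushed forward along a surjective local homeomorphism whose local deck
transformations are smooth: the target is a smooth manifold and the map is a local
diffeomorphism. Criterion for totally skew embeddings of the target.
-/

open scoped Manifold ContDiff
open Set

namespace Pool.Agent.TotallySkew

section cover

variable {E : Type*} [NormedAddCommGroup E] [NormedSpace ℝ E] {M : Type*} [TopologicalSpace M]
  [ChartedSpace E M] {P : Type*} [TopologicalSpace P] {π : M → P}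

/-- Any two points in the same fibre are related by a smooth map over the base. -/
def HasDeck (E : Type*) [NormedAddCommGroup E] [NormedSpace ℝ E] {M : Type*}
    [TopologicalSpace M] [ChartedSpace E M] {P : Type*} (π : M → P) : Prop :=
  ∀ x x', π x = π x' → ∃ σ : M → M, ContMDiff 𝓘(ℝ, E) 𝓘(ℝ, E) ∞ σ ∧ σ x = x' ∧ ∀ y, π (σ y) = π y

theorem HasDeck.contMDiffAt (deck : HasDeck E π) (hf : IsLocalHomeomorph π) {x' m : M}
    (hm : π m ∈ (hf.localInverseAt x').source) :
    ContMDiffAt 𝓘(ℝ, E) 𝓘(ℝ, E) ∞ (fun y => hf.localInverseAt x' (π y)) m := by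
  obtain ⟨σ, hσ, hσm, hσπ⟩ := deck m (hf.localInverseAt x' (π m))
    (hf.apply_localInverseAt_of_mem hm).symm
  refine hσ.contMDiffAt.congr_of_eventuallyEq ?_
  have hmem : σ m ∈ (hf.localInverseAt x').target := by
    rw [hσm]
    exact (hf.localInverseAt x').map_source hm
  have hev : ∀ᶠ y in nhds m, σ y ∈ (hf.localInverseAt x').target :=
    hσ.continuous.continuousAt.eventually ((hf.localInverseAt x').open_target.mem_nhds hmem)
  filter_upwards [hev] with y hy
  rw [← hσπ y]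
  have h := (hf.localInverseAt x').right_inv hy
  rwa [hf.localInverseAt_symm] at h

variable {g : P → M}

theorem isManifold_of_deck [IsManifold 𝓘(ℝ, E) ∞ M] (deck : HasDeck E π)
    (hf : IsLocalHomeomorph π) (hg : Function.RightInverse g π) :
    letI := hf.chartedSpaceOfRightInverse (H := E) hg
    IsManifold 𝓘(ℝ, E) ∞ P := by
  let _ := hf.chartedSpaceOfRightInverse (H := E) hg
  refine isManifold_of_contDiffOn 𝓘(ℝ, E) ∞ P ?_
  rintro _ _ ⟨q, rfl⟩ ⟨q', rfl⟩
  simp only [modelWithCornersSelf_coe, modelWithCornersSelf_coe_symm, range_id, inter_univ,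
    preimage_id, Function.comp_id, Function.id_comp]
  rw [← contMDiffOn_iff_contDiffOn]
  intro z hz
  apply ContMDiffAt.contMDiffWithinAt
  simp only [OpenPartialHomeomorph.trans_source, OpenPartialHomeomorph.symm_source,
    OpenPartialHomeomorph.trans_target, OpenPartialHomeomorph.coe_trans_symm,
    mem_inter_iff, mem_preimage, Function.comp_apply, hf.localInverseAt_symm] at hz
  obtain ⟨⟨hz1, hz2⟩, hz3, hz4⟩ := hz
  have h1 : ContMDiffAt 𝓘(ℝ, E) 𝓘(ℝ, E) ∞ (chartAt E (g q)).symm z :=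
    (contMDiffOn_chart_symm (I := 𝓘(ℝ, E)) (n := ∞) (x := g q)).contMDiffAt
      ((chartAt E (g q)).open_target.mem_nhds hz1)
  have h2 := deck.contMDiffAt hf hz3
  have h3 : ContMDiffAt 𝓘(ℝ, E) 𝓘(ℝ, E) ∞ (chartAt E (g q'))
      (hf.localInverseAt (g q') (π ((chartAt E (g q)).symm z))) :=
    (contMDiffOn_chart (I := 𝓘(ℝ, E)) (n := ∞) (x := g q')).contMDiffAt
      ((chartAt E (g q')).open_source.mem_nhds hz4)
  have h4 : ContMDiffAt 𝓘(ℝ, E) 𝓘(ℝ, E) ∞
      (fun w => hf.localInverseAt (g q') (π ((chartAt E (g q)).symm w))) z :=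
    ContMDiffAt.comp (g := fun y => hf.localInverseAt (g q') (π y)) z h2 h1
  have h5 : ContMDiffAt 𝓘(ℝ, E) 𝓘(ℝ, E) ∞ (fun w => chartAt E (g q')
      (hf.localInverseAt (g q') (π ((chartAt E (g q)).symm w)))) z :=
    ContMDiffAt.comp (g := chartAt E (g q')) z h3 h4
  convert h5 using 1
  ext w
  simp [hf.localInverseAt_symm]

theorem contMDiffAt_proj [IsManifold 𝓘(ℝ, E) ∞ M] (deck : HasDeck E π)
    (hf : IsLocalHomeomorph π) (hg : Function.RightInverse g π) (m : M) :
    letI := hf.chartedSpaceOfRightInverse (H := E) hg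
    ContMDiffAt 𝓘(ℝ, E) 𝓘(ℝ, E) ∞ π m := by
  let _ := hf.chartedSpaceOfRightInverse (H := E) hg
  rw [contMDiffAt_iff_target]
  refine ⟨hf.continuous.continuousAt, ?_⟩
  have hsrc : π m ∈ (hf.localInverseAt (g (π m))).source := by
    have h := hf.apply_self_mem_localInverseAt_source (x := g (π m))
    rwa [hg (π m)] at h
  have hval : hf.localInverseAt (g (π m)) (π m) = g (π m) := by
    have h := hf.localInverseAt_apply_self (x := g (π m))
    rwa [hg (π m)] at h
  have h2 := deck.contMDiffAt hf hsrc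
  have h3 : ContMDiffAt 𝓘(ℝ, E) 𝓘(ℝ, E) ∞ (chartAt E (g (π m)))
      (hf.localInverseAt (g (π m)) (π m)) := by
    rw [hval]
    exact (contMDiffOn_chart (I := 𝓘(ℝ, E)) (n := ∞) (x := g (π m))).contMDiffAt
      ((chartAt E (g (π m))).open_source.mem_nhds (mem_chart_source E (g (π m))))
  have h5 : ContMDiffAt 𝓘(ℝ, E) 𝓘(ℝ, E) ∞ (fun w => chartAt E (g (π m))
      (hf.localInverseAt (g (π m)) (π w))) m :=
    ContMDiffAt.comp (g := chartAt E (g (π m))) m h3 h2
  exact h5

theorem contMDiffAt_localInverse [IsManifold 𝓘(ℝ, E) ∞ M] (deck : HasDeck E π)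
    (hf : IsLocalHomeomorph π) (hg : Function.RightInverse g π) (x : M) {q : P}
    (hq : q ∈ (hf.localInverseAt x).source) :
    letI := hf.chartedSpaceOfRightInverse (H := E) hg
    ContMDiffAt 𝓘(ℝ, E) 𝓘(ℝ, E) ∞ (hf.localInverseAt x) q := by
  let _ := hf.chartedSpaceOfRightInverse (H := E) hg
  rw [contMDiffAt_iff_source]
  apply ContMDiffAt.contMDiffWithinAt
  have hsrc : q ∈ (hf.localInverseAt (g q)).source := by
    have h := hf.apply_self_mem_localInverseAt_source (x := g q)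
    rwa [hg q] at h
  have hval : hf.localInverseAt (g q) q = g q := by
    have h := hf.localInverseAt_apply_self (x := g q)
    rwa [hg q] at h
  have hz : extChartAt 𝓘(ℝ, E) q q = chartAt E (g q) (g q) := by
    change chartAt E (g q) (hf.localInverseAt (g q) q) = _
    rw [hval]
  rw [hz]
  have h1 : ContMDiffAt 𝓘(ℝ, E) 𝓘(ℝ, E) ∞ (chartAt E (g q)).symm (chartAt E (g q) (g q)) :=
    (contMDiffOn_chart_symm (I := 𝓘(ℝ, E)) (n := ∞) (x := g q)).contMDiffAt
      ((chartAt E (g q)).open_target.mem_nhds (mem_chart_target E (g q)))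
  have h2 : ContMDiffAt 𝓘(ℝ, E) 𝓘(ℝ, E) ∞ (fun y => hf.localInverseAt x (π y))
      ((chartAt E (g q)).symm (chartAt E (g q) (g q))) := by
    rw [(chartAt E (g q)).left_inv (mem_chart_source E (g q))]
    exact deck.contMDiffAt hf (by rw [hg q]; exact hq)
  have h4 : ContMDiffAt 𝓘(ℝ, E) 𝓘(ℝ, E) ∞
      (fun w => hf.localInverseAt x (π ((chartAt E (g q)).symm w))) (chartAt E (g q) (g q)) :=
    ContMDiffAt.comp (g := fun y => hf.localInverseAt x (π y)) _ h2 h1
  have he : ∀ w, (extChartAt 𝓘(ℝ, E) q).symm w = π ((chartAt E (g q)).symm w) := by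
    intro w
    change (hf.localInverseAt (g q)).symm ((chartAt E (g q)).symm w) = _
    rw [hf.localInverseAt_symm]
  convert h4 using 1
  ext w
  rw [Function.comp_apply, he]

theorem isLocalDiffeomorph_proj [IsManifold 𝓘(ℝ, E) ∞ M] (deck : HasDeck E π)
    (hf : IsLocalHomeomorph π) (hg : Function.RightInverse g π) :
    letI := hf.chartedSpaceOfRightInverse (H := E) hg
    IsLocalDiffeomorph 𝓘(ℝ, E) 𝓘(ℝ, E) ∞ π := by
  let _ := hf.chartedSpaceOfRightInverse (H := E) hg
  intro x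
  refine ⟨⟨(hf.localInverseAt x).symm.toPartialEquiv, (hf.localInverseAt x).open_target,
    (hf.localInverseAt x).open_source, ?_, ?_⟩, hf.self_mem_localInverseAt_target, ?_⟩
  · intro m _
    have h := contMDiffAt_proj deck hf hg m
    have e : (hf.localInverseAt x).symm.toPartialEquiv.toFun = π :=
      hf.localInverseAt_symm x
    rw [e]
    exact h.contMDiffWithinAt
  · intro q hq
    exact (contMDiffAt_localInverse deck hf hg x hq).contMDiffWithinAt
  · intro y _
    exact (congrFun (hf.localInverseAt_symm x) y).symm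

end cover

/-- Criterion for a totally skew embedding of a compact manifold `P` in terms of a surjective
local diffeomorphism `π : M → P`: a smooth map `Φ : M → F` constant on the fibres, such that
`(t, u, v) ↦ t (Φ x - Φ y) + dΦ_x u + dΦ_y v` is injective whenever `π x ≠ π y`. -/
theorem isTotallySkewEmbedding_of_cover {E : Type*} [NormedAddCommGroup E] [NormedSpace ℝ E]
    {M P F : Type*} [TopologicalSpace M] [ChartedSpace E M] [TopologicalSpace P]
    [ChartedSpace E P] [CompactSpace P] [NormedAddCommGroup F] [NormedSpace ℝ F]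
    {π : M → P} (hloc : IsLocalDiffeomorph 𝓘(ℝ, E) 𝓘(ℝ, E) ∞ π) (hsurj : Function.Surjective π)
    {Φ : M → F} (hΦ : ContMDiff 𝓘(ℝ, E) 𝓘(ℝ, F) ∞ Φ) {φ : P → F} (hφ : ∀ x, φ (π x) = Φ x)
    (hnt : ∀ q : P, ∃ q' : P, q ≠ q')
    (hskew : ∀ x y, π x ≠ π y → ∀ (t : ℝ) (u : TangentSpace 𝓘(ℝ, E) x)
      (v : TangentSpace 𝓘(ℝ, E) y),
      t • (Φ x - Φ y) + mvfderiv 𝓘(ℝ, E) Φ x u + mvfderiv 𝓘(ℝ, E) Φ y v = 0 →
        t = 0 ∧ u = 0) :
    IsTotallySkewEmbedding 𝓘(ℝ, E) φ := by
  have hsm : ContMDiff 𝓘(ℝ, E) 𝓘(ℝ, F) ∞ φ := by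
    intro q
    obtain ⟨x, rfl⟩ := hsurj q
    have h1 : ContMDiffAt 𝓘(ℝ, E) 𝓘(ℝ, F) ∞ (fun p => Φ ((hloc x).localInverse p)) (π x) :=
      ContMDiffAt.comp (g := Φ) (π x) (hΦ _) (hloc x).localInverse_contMDiffAt
    refine h1.congr_of_eventuallyEq ?_
    filter_upwards [(hloc x).localInverse_eventuallyEq_right] with p hp
    simp only [Function.comp_apply, id_eq] at hp
    rw [← hφ, hp]
  have hchain : ∀ (x : M) (u : TangentSpace 𝓘(ℝ, E) x),
      mvfderiv 𝓘(ℝ, E) φ (π x) (mfderiv 𝓘(ℝ, E) 𝓘(ℝ, E) π x u) = mvfderiv 𝓘(ℝ, E) Φ x u := by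
    intro x u
    have h1 : MDifferentiableAt 𝓘(ℝ, E) 𝓘(ℝ, F) φ (π x) :=
      (hsm (π x)).mdifferentiableAt (by simp)
    have h2 : MDifferentiableAt 𝓘(ℝ, E) 𝓘(ℝ, E) π x := (hloc x).mdifferentiableAt (by simp)
    have h3 : Φ = φ ∘ π := by
      ext y
      exact (hφ y).symm
    have h4 := mfderiv_comp_apply x h1 h2 u
    rw [h3]
    exact h4.symm
  have hbij : ∀ (x : M) (w : TangentSpace 𝓘(ℝ, E) (π x)),
      ∃ u : TangentSpace 𝓘(ℝ, E) x, mfderiv 𝓘(ℝ, E) 𝓘(ℝ, E) π x u = w := by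
    intro x w
    obtain ⟨u, hu⟩ := ((hloc x).mfderivToContinuousLinearEquiv (by simp)).surjective w
    exact ⟨u, hu⟩
  refine isTotallySkewEmbedding_of_compact hsm ?_ ?_
  · intro q w hw
    obtain ⟨x, rfl⟩ := hsurj q
    obtain ⟨u, rfl⟩ := hbij x w
    obtain ⟨q', hq'⟩ := hnt (π x)
    obtain ⟨y, rfl⟩ := hsurj q'
    rw [hchain] at hw
    have h := hskew x y hq' 0 u 0 (by rw [hw]; simp)
    rw [h.2, map_zero]
  · intro q q' hqq t w w' h
    obtain ⟨x, rfl⟩ := hsurj q
    obtain ⟨y, rfl⟩ := hsurj q'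
    obtain ⟨u, rfl⟩ := hbij x w
    obtain ⟨v, rfl⟩ := hbij y w'
    rw [hchain, hchain, hφ, hφ] at h
    obtain ⟨h1, h2⟩ := hskew x y hqq t u v h
    rw [hchain, h2, map_zero]
    exact ⟨h1, rfl⟩

end Pool.Agent.TotallySkew
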