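import Mathlib

/-!
Totally skew embeddings of smooth manifolds in normed spaces.
-/

open scoped Manifold ContDiff

namespace Pool.Agent.TotallySkew

variable {E H M F : Type*} [NormedAddCommGroup E] [NormedSpace ℝ E] [TopologicalSpace H]
  [TopologicalSpace M] [ChartedSpace H M] [NormedAddCommGroup F] [NormedSpace ℝ F]

/-- The affine tangent space `φ x + dφ (T_x M)` of a map `φ : M → F` at `x`. -/
noncomputable def affineTangent (I : ModelWithCorners ℝ E H) (φ : M → F) (x : M) :
    AffineSubspace ℝ F :=
  AffineSubspace.mk' (φ x) (mvfderiv I φ x).range

/-- `φ : M → F` is a totally skew embedding of the smooth manifold `M` in the real normed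
space `F`: a smooth map that is a topological embedding, with injective derivative at every point,
such that for all `x ≠ y` the affine tangent spaces `φ x + dφ (T_x M)` and `φ y + dφ (T_y M)` are
disjoint and their direction spaces meet only in `0`. -/
def IsTotallySkewEmbedding (I : ModelWithCorners ℝ E H) (φ : M → F) : Prop :=
  ContMDiff I 𝓘(ℝ, F) ∞ φ ∧
  Topology.IsEmbedding φ ∧
  (∀ x, Function.Injective (mvfderiv I φ x)) ∧
  ∀ x y, x ≠ y →
    Disjoint (affineTangent I φ x) (affineTangent I φ y) ∧
    Disjoint (affineTangent I φ x).direction (affineTangent I φ y).direction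

end Pool.Agent.TotallySkew
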