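import Pool.Agent.TotallySkew.RP2Frame

/-!
A functional in an orthonormal frame that vanishes on `W_a` gives a solution of `Bad a`.
-/

open ComplexConjugate

namespace Pool.Agent.TotallySkew.RP2

/-- An orthonormal frame `p`, `b`, `n = p × b`, an angle given by `c`, `s`, and the coefficients
of a functional. -/
structure Frame (c s p0 p1 p2 b0 b1 b2 n0 n1 n2 : ℝ) : Prop where
  hcs : c ^ 2 + s ^ 2 = 1
  hpp : p0 ^ 2 + p1 ^ 2 + p2 ^ 2 = 1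
  hbb : b0 ^ 2 + b1 ^ 2 + b2 ^ 2 = 1
  hpb : p0 * b0 + p1 * b1 + p2 * b2 = 0
  hn0 : n0 = p1 * b2 - p2 * b1
  hn1 : n1 = p2 * b0 - p0 * b2
  hn2 : n2 = p0 * b1 - p1 * b0

section frame

variable {c s p0 p1 p2 b0 b1 b2 n0 n1 n2 : ℝ}

theorem Frame.hpn (H : Frame c s p0 p1 p2 b0 b1 b2 n0 n1 n2) :
    p0 * n0 + p1 * n1 + p2 * n2 = 0 := by
  rw [H.hn0, H.hn1, H.hn2]; ring

theorem Frame.hbn (H : Frame c s p0 p1 p2 b0 b1 b2 n0 n1 n2) :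
    b0 * n0 + b1 * n1 + b2 * n2 = 0 := by
  rw [H.hn0, H.hn1, H.hn2]; ring

theorem Frame.hnn (H : Frame c s p0 p1 p2 b0 b1 b2 n0 n1 n2) :
    n0 ^ 2 + n1 ^ 2 + n2 ^ 2 = 1 := by
  rw [H.hn0, H.hn1, H.hn2]
  linear_combination (b0 ^ 2 + b1 ^ 2 + b2 ^ 2) * H.hpp + H.hbb
    - (p0 * b0 + p1 * b1 + p2 * b2) * H.hpb

theorem Frame.rel (H : Frame c s p0 p1 p2 b0 b1 b2 n0 n1 n2) :
    (wc p0 p1 + Complex.I * wc b0 b1) * conj (wc p0 p1 - Complex.I * wc b0 b1) =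
      -wc p2 b2 ^ 2 := by
  apply Complex.ext
  · simp [wc, pow_two]
    linear_combination H.hpp - H.hbb
  · simp [wc, pow_two]
    linear_combination 2 * H.hpb

theorem Frame.nrm (H : Frame c s p0 p1 p2 b0 b1 b2 n0 n1 n2) :
    Complex.normSq (wc p0 p1 + Complex.I * wc b0 b1) +
      Complex.normSq (wc p0 p1 - Complex.I * wc b0 b1) + 2 * Complex.normSq (wc p2 b2) = 4 := by
  simp [wc, Complex.normSq_apply]
  linear_combination 2 * H.hpp + 2 * H.hbb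

theorem Frame.n3_eq (H : Frame c s p0 p1 p2 b0 b1 b2 n0 n1 n2) :
    n3 (wc p0 p1 + Complex.I * wc b0 b1) (wc p0 p1 - Complex.I * wc b0 b1) = n2 := by
  rw [H.hn2]
  simp [n3, wc, Complex.normSq_apply]
  ring

theorem Frame.ord (H : Frame c s p0 p1 p2 b0 b1 b2 n0 n1 n2) (hpos : 0 ≤ n2) :
    Complex.normSq (wc p0 p1 + Complex.I * wc b0 b1) ≤
      Complex.normSq (wc p0 p1 - Complex.I * wc b0 b1) := by
  have h := H.n3_eq
  rw [n3] at h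
  linarith

theorem Frame.mem_Icc (H : Frame c s p0 p1 p2 b0 b1 b2 n0 n1 n2) :
    c ^ 2 - s ^ 2 ∈ Set.Icc (-1 : ℝ) 1 := by
  have h := H.hcs
  constructor
  · linarith [sq_nonneg c]
  · linarith [sq_nonneg s]

theorem Frame.nw_eq (H : Frame c s p0 p1 p2 b0 b1 b2 n0 n1 n2) :
    nw (wc p0 p1 + Complex.I * wc b0 b1) (wc p0 p1 - Complex.I * wc b0 b1) (wc p2 b2) =
      wc n0 n1 := by
  rw [H.hn0, H.hn1]
  unfold nw
  rw [div_eq_iff two_ne_zero]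
  apply Complex.ext
  · simp [wc]; ring
  · simp [wc]; ring

theorem Frame.mu_eq (H : Frame c s p0 p1 p2 b0 b1 b2 n0 n1 n2) (h0 h1 : ℝ) :
    mu (wc p0 p1 + Complex.I * wc b0 b1) (wc p0 p1 - Complex.I * wc b0 b1) (wc p2 b2)
      (wc h0 h1) = h0 * n0 + h1 * n1 := by
  rw [mu, H.nw_eq]
  simp [wc]

theorem eta_eq (h0 h1 : ℝ) :
    eta (wc p0 p1 + Complex.I * wc b0 b1) (wc p0 p1 - Complex.I * wc b0 b1)
      (wc h0 h1) = wc (h0 * p0 + h1 * p1) (h0 * b0 + h1 * b1) := by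
  unfold eta
  rw [div_eq_iff two_ne_zero]
  apply Complex.ext
  · simp [wc]; ring
  · simp [wc]; ring

end frame

section main

variable {a c s p0 p1 p2 b0 b1 b2 n0 n1 n2 t t' α1 α2 β1 β2 : ℝ}

theorem two_mul_aux (x X y N : ℂ) :
    2 * (x * (Complex.I / 2 * X) + y * N) = x * (Complex.I * X) + 2 * (y * N) := by ring

/-- the point `c p + s b`, in complex form -/
theorem wc_x (c s p0 p1 b0 b1 : ℝ) : wc (c * p0 + s * b0) (c * p1 + s * b1) =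
    (wc c s * (wc p0 p1 - Complex.I * wc b0 b1) +
      wc c (-s) * (wc p0 p1 + Complex.I * wc b0 b1)) / 2 := by
  rw [eq_div_iff two_ne_zero]
  apply Complex.ext
  · simp [wc]; ring
  · simp [wc]; ring

theorem wc_y (c s p0 p1 b0 b1 : ℝ) : wc (c * p0 - s * b0) (c * p1 - s * b1) =
    (wc c (-s) * (wc p0 p1 - Complex.I * wc b0 b1) +
      wc c s * (wc p0 p1 + Complex.I * wc b0 b1)) / 2 := by
  rw [eq_div_iff two_ne_zero]
  apply Complex.ext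
  · simp [wc]; ring
  · simp [wc]; ring

theorem wc_u (c s p0 p1 b0 b1 n0 n1 α1 α2 : ℝ) :
    wc (α1 * (-s * p0 + c * b0) + α2 * n0) (α1 * (-s * p1 + c * b1) + α2 * n1) =
    α1 * (Complex.I / 2 * (wc c s * (wc p0 p1 - Complex.I * wc b0 b1) -
      wc c (-s) * (wc p0 p1 + Complex.I * wc b0 b1))) + α2 * wc n0 n1 := by
  refine mul_left_cancel₀ (two_ne_zero' ℂ) ?_
  rw [two_mul_aux]
  apply Complex.ext
  · simp [wc]; ring
  · simp [wc]; ring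

theorem wc_v (c s p0 p1 b0 b1 n0 n1 β1 β2 : ℝ) :
    wc (β1 * (s * p0 + c * b0) + β2 * n0) (β1 * (s * p1 + c * b1) + β2 * n1) =
    β1 * (Complex.I / 2 * (wc c (-s) * (wc p0 p1 - Complex.I * wc b0 b1) -
      wc c s * (wc p0 p1 + Complex.I * wc b0 b1))) + β2 * wc n0 n1 := by
  refine mul_left_cancel₀ (two_ne_zero' ℂ) ?_
  rw [two_mul_aux]
  apply Complex.ext
  · simp [wc]; ring
  · simp [wc]; ring

theorem zc_x (c s p2 b2 : ℝ) : ((c * p2 + s * b2 : ℝ) : ℂ) =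
    (wc c s * conj (wc p2 b2) + wc c (-s) * wc p2 b2) / 2 := by
  rw [eq_div_iff two_ne_zero]
  apply Complex.ext
  · simp [wc]; ring
  · simp [wc]; ring

theorem zc_y (c s p2 b2 : ℝ) : ((c * p2 - s * b2 : ℝ) : ℂ) =
    (wc c (-s) * conj (wc p2 b2) + wc c s * wc p2 b2) / 2 := by
  rw [eq_div_iff two_ne_zero]
  apply Complex.ext
  · simp [wc]; ring
  · simp [wc]; ring

theorem zc_u (c s p2 b2 n2 α1 α2 : ℝ) :
    ((α1 * (-s * p2 + c * b2) + α2 * n2 : ℝ) : ℂ) =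
    (α1 : ℂ) * (Complex.I / 2 * (wc c s * conj (wc p2 b2) - wc c (-s) * wc p2 b2))
      + α2 * n2 := by
  refine mul_left_cancel₀ (two_ne_zero' ℂ) ?_
  rw [two_mul_aux]
  apply Complex.ext
  · simp [wc]; ring
  · simp [wc]

theorem zc_v (c s p2 b2 n2 β1 β2 : ℝ) :
    ((β1 * (s * p2 + c * b2) + β2 * n2 : ℝ) : ℂ) =
    (β1 : ℂ) * (Complex.I / 2 * (wc c (-s) * conj (wc p2 b2) - wc c s * wc p2 b2))
      + β2 * n2 := by
  refine mul_left_cancel₀ (two_ne_zero' ℂ) ?_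
  rw [two_mul_aux]
  apply Complex.ext
  · simp [wc]; ring
  · simp [wc]

/-- the third coordinate of `D (· z)` -/
noncomputable def hco (t t' xi x2 yi y2 ui u2 vi v2 : ℝ) : ℝ :=
  t * (xi * x2) + t' * (yi * y2) + (ui * x2 + xi * u2) + (vi * y2 + yi * v2)

/-- `S² / 2 (C e₁ - (α₁ + β₁))` -/
noncomputable def dco (c s t t' α1 β1 : ℝ) : ℝ :=
  (2 * c * s) ^ 2 / 2 * ((c ^ 2 - s ^ 2) * ((2 * c * s) / 2 * (t - t') +
    (c ^ 2 - s ^ 2) * (α1 + β1)) - (α1 + β1))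

theorem frame_quads (H : Frame c s p0 p1 p2 b0 b1 b2 n0 n1 n2)
    {x0 x1 x2 y0 y1 y2 u0 u1 u2 v0 v1 v2 : ℝ}
    (hx0 : x0 = c * p0 + s * b0) (hx1 : x1 = c * p1 + s * b1) (hx2 : x2 = c * p2 + s * b2)
    (hy0 : y0 = c * p0 - s * b0) (hy1 : y1 = c * p1 - s * b1) (hy2 : y2 = c * p2 - s * b2)
    (hu0 : u0 = α1 * (-s * p0 + c * b0) + α2 * n0) (hu1 : u1 = α1 * (-s * p1 + c * b1) + α2 * n1)
    (hu2 : u2 = α1 * (-s * p2 + c * b2) + α2 * n2)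
    (hv0 : v0 = β1 * (s * p0 + c * b0) + β2 * n0) (hv1 : v1 = β1 * (s * p1 + c * b1) + β2 * n1)
    (hv2 : v2 = β1 * (s * p2 + c * b2) + β2 * n2)
    {h0 h1 : ℝ}
    (k0 : t * (1 - 3 * x2 ^ 2) + t' * (1 - 3 * y2 ^ 2) - 6 * x2 * u2 - 6 * y2 * v2 = 0)
    (k2 : (t : ℂ) * wc x0 x1 ^ 2 + t' * wc y0 y1 ^ 2 + 2 * wc x0 x1 * wc u0 u1
      + 2 * wc y0 y1 * wc v0 v1 = 0)
    (hh0 : h0 = hco t t' x0 x2 y0 y2 u0 u2 v0 v2)
    (hh1 : h1 = hco t t' x1 x2 y1 y2 u1 u2 v1 v2) :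
    t + t' = -6 * n2 * (h0 * n0 + h1 * n1) ∧
    c * s * (t - t') + (c ^ 2 - s ^ 2) * (α1 + β1) =
      p2 * (h0 * b0 + h1 * b1) + b2 * (h0 * p0 + h1 * p1) ∧
    (c ^ 2 - s ^ 2) * (t + t') / 2 - 2 * c * s * (α1 - β1) =
      p2 * (h0 * p0 + h1 * p1) - b2 * (h0 * b0 + h1 * b1) ∧
    c * (α2 + β2) = p2 * (h0 * n0 + h1 * n1) + n2 * (h0 * p0 + h1 * p1) ∧
    s * (α2 - β2) = b2 * (h0 * n0 + h1 * n1) + n2 * (h0 * b0 + h1 * b1) := by
  -- scalar products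
  have px : p0 * x0 + p1 * x1 + p2 * x2 = c := by
    rw [hx0, hx1, hx2]; linear_combination c * H.hpp + s * H.hpb
  have bx : b0 * x0 + b1 * x1 + b2 * x2 = s := by
    rw [hx0, hx1, hx2]; linear_combination c * H.hpb + s * H.hbb
  have nx : n0 * x0 + n1 * x1 + n2 * x2 = 0 := by
    rw [hx0, hx1, hx2]; linear_combination c * H.hpn + s * H.hbn
  have py : p0 * y0 + p1 * y1 + p2 * y2 = c := by
    rw [hy0, hy1, hy2]; linear_combination c * H.hpp - s * H.hpb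
  have byy : b0 * y0 + b1 * y1 + b2 * y2 = -s := by
    rw [hy0, hy1, hy2]; linear_combination c * H.hpb - s * H.hbb
  have ny : n0 * y0 + n1 * y1 + n2 * y2 = 0 := by
    rw [hy0, hy1, hy2]; linear_combination c * H.hpn - s * H.hbn
  have pu : p0 * u0 + p1 * u1 + p2 * u2 = -s * α1 := by
    rw [hu0, hu1, hu2]
    linear_combination (-s * α1) * H.hpp + (c * α1) * H.hpb + α2 * H.hpn
  have bu : b0 * u0 + b1 * u1 + b2 * u2 = c * α1 := by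
    rw [hu0, hu1, hu2]
    linear_combination (-s * α1) * H.hpb + (c * α1) * H.hbb + α2 * H.hbn
  have nuu : n0 * u0 + n1 * u1 + n2 * u2 = α2 := by
    rw [hu0, hu1, hu2]
    linear_combination (-s * α1) * H.hpn + (c * α1) * H.hbn + α2 * H.hnn
  have pv : p0 * v0 + p1 * v1 + p2 * v2 = s * β1 := by
    rw [hv0, hv1, hv2]
    linear_combination (s * β1) * H.hpp + (c * β1) * H.hpb + β2 * H.hpn
  have bv : b0 * v0 + b1 * v1 + b2 * v2 = c * β1 := by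
    rw [hv0, hv1, hv2]
    linear_combination (s * β1) * H.hpb + (c * β1) * H.hbb + β2 * H.hbn
  have nv : n0 * v0 + n1 * v1 + n2 * v2 = β2 := by
    rw [hv0, hv1, hv2]
    linear_combination (s * β1) * H.hpn + (c * β1) * H.hbn + β2 * H.hnn
  have xx : x0 ^ 2 + x1 ^ 2 + x2 ^ 2 = 1 := by
    rw [hx0, hx1, hx2]
    linear_combination c ^ 2 * H.hpp + 2 * c * s * H.hpb + s ^ 2 * H.hbb + H.hcs
  have yy : y0 ^ 2 + y1 ^ 2 + y2 ^ 2 = 1 := by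
    rw [hy0, hy1, hy2]
    linear_combination c ^ 2 * H.hpp - 2 * c * s * H.hpb + s ^ 2 * H.hbb + H.hcs
  have xu : x0 * u0 + x1 * u1 + x2 * u2 = 0 := by
    conv_lhs => rw [hx0, hx1, hx2]
    linear_combination c * pu + s * bu
  have yv : y0 * v0 + y1 * v1 + y2 * v2 = 0 := by
    conv_lhs => rw [hy0, hy1, hy2]
    linear_combination c * pv - s * bv
  have Q := quad_form xx yy xu yv k0 k2 hh0 hh1
  have Qpb := Q p0 p1 p2 b0 b1 b2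
  have Qpp := Q p0 p1 p2 p0 p1 p2
  have Qbb := Q b0 b1 b2 b0 b1 b2
  have Qpn := Q p0 p1 p2 n0 n1 n2
  have Qbn := Q b0 b1 b2 n0 n1 n2
  have Qnn := Q n0 n1 n2 n0 n1 n2
  rw [px, bx, py, byy, pu, bu, pv, bv] at Qpb
  rw [px, py, pu, pv] at Qpp
  rw [bx, byy, bu, bv] at Qbb
  rw [px, nx, py, ny, pu, nuu, pv, nv] at Qpn
  rw [bx, nx, byy, ny, bu, nuu, bv, nv] at Qbn
  rw [nx, ny, nuu, nv] at Qnn
  refine ⟨?_, ?_, ?_, ?_, ?_⟩
  · linear_combination (-3) * Qnn - (t + t') * H.hnn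
  · linear_combination Qpb + (t + t') / 3 * H.hpb
  · linear_combination Qpp / 2 - Qbb / 2 + (t + t') / 6 * (H.hpp - H.hbb)
  · linear_combination Qpn + (t + t') / 3 * H.hpn
  · linear_combination Qbn + (t + t') / 3 * H.hbn

theorem bad_of_frame (H : Frame c s p0 p1 p2 b0 b1 b2 n0 n1 n2) (hpos : 0 ≤ n2)
    {x0 x1 x2 y0 y1 y2 u0 u1 u2 v0 v1 v2 : ℝ}
    (hx0 : x0 = c * p0 + s * b0) (hx1 : x1 = c * p1 + s * b1) (hx2 : x2 = c * p2 + s * b2)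
    (hy0 : y0 = c * p0 - s * b0) (hy1 : y1 = c * p1 - s * b1) (hy2 : y2 = c * p2 - s * b2)
    (hu0 : u0 = α1 * (-s * p0 + c * b0) + α2 * n0) (hu1 : u1 = α1 * (-s * p1 + c * b1) + α2 * n1)
    (hu2 : u2 = α1 * (-s * p2 + c * b2) + α2 * n2)
    (hv0 : v0 = β1 * (s * p0 + c * b0) + β2 * n0) (hv1 : v1 = β1 * (s * p1 + c * b1) + β2 * n1)
    (hv2 : v2 = β1 * (s * p2 + c * b2) + β2 * n2)
    (K : Kills a t t' x0 x1 x2 y0 y1 y2 u0 u1 u2 v0 v1 v2) :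
    Bad a (wc p0 p1 + Complex.I * wc b0 b1) (wc p0 p1 - Complex.I * wc b0 b1) (wc p2 b2)
      (c ^ 2 - s ^ 2) (dco c s t t' α1 β1)
      (wc (hco t t' x0 x2 y0 y2 u0 u2 v0 v2) (hco t t' x1 x2 y1 y2 u1 u2 v1 v2)) := by
  obtain ⟨h0, hh0⟩ : ∃ h0, h0 = hco t t' x0 x2 y0 y2 u0 u2 v0 v2 := ⟨_, rfl⟩
  obtain ⟨h1, hh1⟩ : ∃ h1, h1 = hco t t' x1 x2 y1 y2 u1 u2 v1 v2 := ⟨_, rfl⟩
  obtain ⟨Q1, Q2, Q3, Q4, Q5⟩ := frame_quads H hx0 hx1 hx2 hy0 hy1 hy2 hu0 hu1 hu2 hv0 hv1 hv2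
    K.k0 K.k2 hh0 hh1
  -- the derived quantities
  have hep : ep (wc p0 p1 + Complex.I * wc b0 b1) (wc p0 p1 - Complex.I * wc b0 b1) (wc p2 b2)
      (wc h0 h1) = t + t' := by
    rw [ep, H.n3_eq, H.mu_eq]
    linear_combination -Q1
  obtain ⟨C, hC⟩ : ∃ C, C = c ^ 2 - s ^ 2 := ⟨_, rfl⟩
  obtain ⟨S, hS⟩ : ∃ S, S = 2 * c * s := ⟨_, rfl⟩
  have hCS : C ^ 2 + S ^ 2 = 1 := by
    rw [hC, hS]
    linear_combination (c ^ 2 + s ^ 2 + 1) * H.hcs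
  obtain ⟨e, he⟩ : ∃ e, e = ee (wc p0 p1 + Complex.I * wc b0 b1)
    (wc p0 p1 - Complex.I * wc b0 b1) (wc p2 b2) (wc h0 h1) := ⟨_, rfl⟩
  have hee : e = wc p2 b2 * wc (h0 * p0 + h1 * p1) (h0 * b0 + h1 * b1) := by
    rw [he, ee, eta_eq]
  have he2 : e.re = C * (t + t') / 2 - S * (α1 - β1) := by
    rw [hee, hC, hS]
    simp only [wc, Complex.mul_re, Complex.add_re, Complex.add_im, Complex.ofReal_re,
      Complex.ofReal_im, Complex.I_re, Complex.I_im, Complex.mul_im]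
    linear_combination -Q3
  have he1 : e.im = S / 2 * (t - t') + C * (α1 + β1) := by
    rw [hee, hC, hS]
    simp only [wc, Complex.mul_re, Complex.add_re, Complex.add_im, Complex.ofReal_re,
      Complex.ofReal_im, Complex.I_re, Complex.I_im, Complex.mul_im]
    linear_combination -Q2
  have hd : dco c s t t' α1 β1 = S ^ 2 / 2 * (C * e.im - (α1 + β1)) := by
    rw [he1, hC, hS, dco]
  obtain ⟨E, hE⟩ : ∃ E, E = wc c s := ⟨_, rfl⟩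
  obtain ⟨F, hF⟩ : ∃ F, F = wc c (-s) := ⟨_, rfl⟩
  have hEF : E * F = 1 := by
    rw [hE, hF]
    apply Complex.ext
    · simp [wc]; linear_combination H.hcs
    · simp [wc]; ring
  have cE : conj E = F := by
    rw [hE, hF]
    apply Complex.ext <;> simp [wc]
  have cF : conj F = E := by
    rw [hE, hF]
    apply Complex.ext <;> simp [wc]
  have hE2 : (C : ℂ) + Complex.I * S = E ^ 2 := by
    rw [hE, hC, hS]
    apply Complex.ext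
    · simp [wc, pow_two]
    · simp [wc, pow_two]; ring
  have hF2 : (C : ℂ) - Complex.I * S = F ^ 2 := by
    rw [hF, hC, hS]
    apply Complex.ext
    · simp [wc, pow_two]
    · simp [wc, pow_two]; ring
  obtain ⟨ν, hν⟩ : ∃ ν, ν = nu (wc p0 p1 + Complex.I * wc b0 b1)
    (wc p0 p1 - Complex.I * wc b0 b1) (wc p2 b2) (wc h0 h1) := ⟨_, rfl⟩
  have hνE : ν = α2 * E + β2 * F := by
    rw [hν, nu, H.n3_eq, H.mu_eq, eta_eq, hE, hF]
    apply Complex.ext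
    · simp only [wc, Complex.mul_re, Complex.add_re, Complex.add_im, Complex.ofReal_re,
        Complex.ofReal_im, Complex.I_re, Complex.I_im, Complex.mul_im]
      linear_combination -Q4
    · simp only [wc, Complex.mul_re, Complex.add_re, Complex.add_im, Complex.ofReal_re,
        Complex.ofReal_im, Complex.I_re, Complex.I_im, Complex.mul_im]
      linear_combination -Q5
  have hνc : conj ν = α2 * F + β2 * E := by
    rw [hνE, map_add, map_mul, map_mul, Complex.conj_ofReal, Complex.conj_ofReal, cE, cF]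
  have h2C : 2 * (C : ℂ) = E ^ 2 + F ^ 2 := by rw [← hE2, ← hF2]; ring
  have hν3 : nu3 C ν = α2 * E ^ 3 + β2 * F ^ 3 := by
    rw [nu3, h2C, hνc, hνE]
    linear_combination (α2 * F + β2 * E) * hEF
  have hν3c : conj (nu3 C ν) = α2 * F ^ 3 + β2 * E ^ 3 := by
    rw [hν3, map_add, map_mul, map_mul, map_pow, map_pow, Complex.conj_ofReal,
      Complex.conj_ofReal, cE, cF]
  have hν5 : nu5 C ν = α2 * E ^ 5 + β2 * F ^ 5 := by
    have h4 : (4 * (C : ℂ) ^ 2 - 1) = (E ^ 2 + F ^ 2) ^ 2 - 1 := by rw [← h2C]; ring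
    rw [nu5, h4, h2C, hνc, hνE]
    linear_combination (α2 * (2 * E * (E * F + 1) + F ^ 3 - E)
      + β2 * (2 * F * (E * F + 1) + E ^ 3 - F)) * hEF
  have hν5c : conj (nu5 C ν) = α2 * F ^ 5 + β2 * E ^ 5 := by
    rw [hν5, map_add, map_mul, map_mul, map_pow, map_pow, Complex.conj_ofReal,
      Complex.conj_ofReal, cE, cF]
  have hτ2 : 2 * e = (t + 2 * Complex.I * α1) * E ^ 2 + (t' + 2 * Complex.I * β1) * F ^ 2 := by
    rw [← hE2, ← hF2]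
    exact tau2_aux he1 he2
  have hτ4 : tau4 C (dco c s t t' α1 β1) (t + t') e =
      (t + 4 * Complex.I * α1) * E ^ 4 + (t' + 4 * Complex.I * β1) * F ^ 4 := by
    rw [tau4_aux hCS he1 he2 hd, hE2, hF2]
    ring
  have hτ6 : tau6 C (dco c s t t' α1 β1) (t + t') e =
      (t + 6 * Complex.I * α1) * E ^ 6 + (t' + 6 * Complex.I * β1) * F ^ 6 := by
    rw [tau6_aux hCS he1 he2 hd, hE2, hF2]
    ring
  have hτ2c : conj (2 * e) =
      (t - 2 * Complex.I * α1) * F ^ 2 + (t' - 2 * Complex.I * β1) * E ^ 2 := by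
    rw [hτ2]
    simp only [map_add, map_mul, map_pow, Complex.conj_ofReal, cE, cF, Complex.conj_I, map_ofNat]
    ring
  have hτ4c : conj (tau4 C (dco c s t t' α1 β1) (t + t') e) =
      (t - 4 * Complex.I * α1) * F ^ 4 + (t' - 4 * Complex.I * β1) * E ^ 4 := by
    rw [hτ4]
    simp only [map_add, map_mul, map_pow, Complex.conj_ofReal, cE, cF, Complex.conj_I, map_ofNat]
    ring
  have hτ6c : conj (tau6 C (dco c s t t' α1 β1) (t + t') e) =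
      (t - 6 * Complex.I * α1) * F ^ 6 + (t' - 6 * Complex.I * β1) * E ^ 6 := by
    rw [hτ6]
    simp only [map_add, map_mul, map_pow, Complex.conj_ofReal, cE, cF, Complex.conj_I, map_ofNat]
    ring
  -- the coordinates
  have wx := wc_x c s p0 p1 b0 b1
  have wy := wc_y c s p0 p1 b0 b1
  have wu := wc_u c s p0 p1 b0 b1 n0 n1 α1 α2
  have wv := wc_v c s p0 p1 b0 b1 n0 n1 β1 β2
  have zx := zc_x c s p2 b2
  have zy := zc_y c s p2 b2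
  have zu := zc_u c s p2 b2 n2 α1 α2
  have zv := zc_v c s p2 b2 n2 β1 β2
  rw [← hx0, ← hx1, ← hE, ← hF] at wx
  rw [← hy0, ← hy1, ← hE, ← hF] at wy
  rw [← hu0, ← hu1, ← hE, ← hF] at wu
  rw [← hv0, ← hv1, ← hE, ← hF] at wv
  rw [← hx2, ← hE, ← hF] at zx
  rw [← hy2, ← hE, ← hF] at zy
  rw [← hu2, ← hE, ← hF] at zu
  rw [← hv2, ← hE, ← hF] at zv
  have epC : (((t + t' : ℝ)) : ℂ) = t + t' := by push_cast; ring
  have k4 : Dw4 (wc p0 p1 + Complex.I * wc b0 b1) (wc p0 p1 - Complex.I * wc b0 b1) (wc p2 b2)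
      (c ^ 2 - s ^ 2) (dco c s t t' α1 β1) (wc h0 h1) =
      t * wc x0 x1 ^ 4 + t' * wc y0 y1 ^ 4
      + 4 * wc x0 x1 ^ 3 * wc u0 u1 + 4 * wc y0 y1 ^ 3 * wc v0 v1 := by
    rw [Dw4, hep, ← he, ← hν, ← hC, H.nw_eq, form4, hν3c, hν3, hνc, hνE, hτ4c, hτ4, hτ2c, hτ2,
      epC, wx, wy, wu, wv]
    exact (form4_aux hEF).symm
  have kz4 : Dz4 (wc p0 p1 + Complex.I * wc b0 b1) (wc p0 p1 - Complex.I * wc b0 b1) (wc p2 b2)
      (c ^ 2 - s ^ 2) (dco c s t t' α1 β1) (wc h0 h1) =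
      t * (x2 : ℂ) ^ 4 + t' * (y2 : ℂ) ^ 4
      + 4 * (x2 : ℂ) ^ 3 * u2 + 4 * (y2 : ℂ) ^ 3 * v2 := by
    rw [Dz4, hep, ← he, ← hν, ← hC, H.n3_eq, form4, hν3c, hν3, hνc, hνE, hτ4c, hτ4, hτ2c, hτ2,
      epC, zx, zy, zu, zv]
    exact (form4_aux hEF).symm
  have k31 : Dw3z (wc p0 p1 + Complex.I * wc b0 b1) (wc p0 p1 - Complex.I * wc b0 b1)
      (wc p2 b2) (c ^ 2 - s ^ 2) (dco c s t t' α1 β1) (wc h0 h1) =
      t * (wc x0 x1 ^ 3 * x2) + t' * (wc y0 y1 ^ 3 * y2)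
      + (3 * wc x0 x1 ^ 2 * wc u0 u1 * x2 + wc x0 x1 ^ 3 * u2)
      + (3 * wc y0 y1 ^ 2 * wc v0 v1 * y2 + wc y0 y1 ^ 3 * v2) := by
    rw [Dw3z, hep, ← he, ← hν, ← hC, H.n3_eq, H.nw_eq, form31, hν3c, hν3, hνc, hνE, hτ4c, hτ4,
      hτ2c, hτ2, epC, wx, wy, wu, wv, zx, zy, zu, zv]
    exact (form31_aux hEF).symm
  have k51 : Dw5z (wc p0 p1 + Complex.I * wc b0 b1) (wc p0 p1 - Complex.I * wc b0 b1)
      (wc p2 b2) (c ^ 2 - s ^ 2) (dco c s t t' α1 β1) (wc h0 h1) =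
      t * (wc x0 x1 ^ 5 * x2) + t' * (wc y0 y1 ^ 5 * y2)
      + (5 * wc x0 x1 ^ 4 * wc u0 u1 * x2 + wc x0 x1 ^ 5 * u2)
      + (5 * wc y0 y1 ^ 4 * wc v0 v1 * y2 + wc y0 y1 ^ 5 * v2) := by
    rw [Dw5z, hep, ← he, ← hν, ← hC, H.n3_eq, H.nw_eq, form51, hν5c, hν5, hν3c, hν3, hνc, hνE,
      hτ6c, hτ6, hτ4c, hτ4, hτ2c, hτ2, epC, wx, wy, wu, wv, zx, zy, zu, zv]
    exact (form51_aux hEF).symm
  rw [← hh0, ← hh1]
  refine ⟨H.rel, H.nrm, ?_, ?_, ?_, ?_, ?_⟩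
  · exact H.ord hpos
  · exact H.mem_Icc
  · rw [k4]
    have hw : wc h0 h1 = (t : ℂ) * (wc x0 x1 * x2) + t' * (wc y0 y1 * y2)
        + (wc u0 u1 * x2 + wc x0 x1 * u2) + (wc v0 v1 * y2 + wc y0 y1 * v2) := by
      rw [hh0, hh1]
      simp only [wc, hco]
      push_cast
      ring
    rw [hw]
    exact K.k1
  · rw [k31]
    exact K.k3
  · rw [kz4, k51]
    have h := K.k4
    have hr : ((t : ℂ) * (x2 : ℂ) ^ 4 + t' * (y2 : ℂ) ^ 4
      + 4 * (x2 : ℂ) ^ 3 * u2 + 4 * (y2 : ℂ) ^ 3 * v2).re =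
      t * x2 ^ 4 + t' * y2 ^ 4 + 4 * x2 ^ 3 * u2 + 4 * y2 ^ 3 * v2 := by
      have h1 : ((t : ℂ) * (x2 : ℂ) ^ 4 + t' * (y2 : ℂ) ^ 4
        + 4 * (x2 : ℂ) ^ 3 * u2 + 4 * (y2 : ℂ) ^ 3 * v2) =
        ((t * x2 ^ 4 + t' * y2 ^ 4 + 4 * x2 ^ 3 * u2 + 4 * y2 ^ 3 * v2 : ℝ) : ℂ) := by
        push_cast; ring
      rw [h1, Complex.ofReal_re]
    rw [hr]
    exact h

theorem frame_trivial (H : Frame c s p0 p1 p2 b0 b1 b2 n0 n1 n2) (hc : 0 < c) (hs : 0 < s)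
    {x0 x1 x2 y0 y1 y2 u0 u1 u2 v0 v1 v2 : ℝ}
    (hx0 : x0 = c * p0 + s * b0) (hx1 : x1 = c * p1 + s * b1) (hx2 : x2 = c * p2 + s * b2)
    (hy0 : y0 = c * p0 - s * b0) (hy1 : y1 = c * p1 - s * b1) (hy2 : y2 = c * p2 - s * b2)
    (hu0 : u0 = α1 * (-s * p0 + c * b0) + α2 * n0) (hu1 : u1 = α1 * (-s * p1 + c * b1) + α2 * n1)
    (hu2 : u2 = α1 * (-s * p2 + c * b2) + α2 * n2)
    (hv0 : v0 = β1 * (s * p0 + c * b0) + β2 * n0) (hv1 : v1 = β1 * (s * p1 + c * b1) + β2 * n1)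
    (hv2 : v2 = β1 * (s * p2 + c * b2) + β2 * n2)
    (k0 : t * (1 - 3 * x2 ^ 2) + t' * (1 - 3 * y2 ^ 2) - 6 * x2 * u2 - 6 * y2 * v2 = 0)
    (k2 : (t : ℂ) * wc x0 x1 ^ 2 + t' * wc y0 y1 ^ 2 + 2 * wc x0 x1 * wc u0 u1
      + 2 * wc y0 y1 * wc v0 v1 = 0)
    (hd : dco c s t t' α1 β1 = 0)
    (hh0 : hco t t' x0 x2 y0 y2 u0 u2 v0 v2 = 0)
    (hh1 : hco t t' x1 x2 y1 y2 u1 u2 v1 v2 = 0) :
    t = 0 ∧ t' = 0 ∧ α1 = 0 ∧ α2 = 0 ∧ β1 = 0 ∧ β2 = 0 := by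
  obtain ⟨Q1, Q2, Q3, Q4, Q5⟩ := frame_quads H hx0 hx1 hx2 hy0 hy1 hy2 hu0 hu1 hu2 hv0 hv1 hv2
    k0 k2 hh0.symm hh1.symm
  clear hx0 hx1 hx2 hy0 hy1 hy2 hu0 hu1 hu2 hv0 hv1 hv2 k0 k2 hh0 hh1 H
  have R1 : t + t' = 0 := by linear_combination Q1
  have R2 : c * s * (t - t') + (c ^ 2 - s ^ 2) * (α1 + β1) = 0 := by linear_combination Q2
  have R3 : 2 * c * s * (α1 - β1) = 0 := by
    linear_combination -Q3 + (c ^ 2 - s ^ 2) / 2 * R1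
  have R4 : c * (α2 + β2) = 0 := by linear_combination Q4
  have R5 : s * (α2 - β2) = 0 := by linear_combination Q5
  have hcs2 : 2 * c * s ≠ 0 := by positivity
  have S3 : α1 - β1 = 0 := (mul_eq_zero.1 R3).resolve_left hcs2
  have S4 : α2 + β2 = 0 := (mul_eq_zero.1 R4).resolve_left hc.ne'
  have S5 : α2 - β2 = 0 := (mul_eq_zero.1 R5).resolve_left hs.ne'
  have S6 : (2 * c * s) ^ 2 / 2 * (α1 + β1) = 0 := by
    rw [dco] at hd
    linear_combination -hd + (2 * c * s) ^ 2 / 2 * (c ^ 2 - s ^ 2) * R2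
  have S7 : α1 + β1 = 0 := (mul_eq_zero.1 S6).resolve_left (by positivity)
  have S8 : c * s * (t - t') = 0 := by linear_combination R2 - (c ^ 2 - s ^ 2) * S7
  have S9 : t - t' = 0 := (mul_eq_zero.1 S8).resolve_left (by positivity)
  refine ⟨by linarith, by linarith, by linarith, by linarith, by linarith, by linarith⟩

end main

end Pool.Agent.TotallySkew.RP2
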