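import Pool.Agent.TotallySkew.RP2Limit

/-!
For all sufficiently small `a > 0` the equations `Bad a` have no solution other than `d = 0`,
`h = 0`.
-/

open ComplexConjugate

namespace Pool.Agent.TotallySkew.RP2

section continuity

variable {X : Type*} [TopologicalSpace X] {ω A B ζ h : X → ℂ} {r α C d : X → ℝ}

@[fun_prop] theorem continuous_hp (hA : Continuous A) (hB : Continuous B) (hζ : Continuous ζ)
    (hC : Continuous C) (hd : Continuous d) (hh : Continuous h) :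
    Continuous fun x => hp (A x) (B x) (ζ x) (C x) (d x) (h x) := by
  unfold hp
  fun_prop

@[fun_prop] theorem continuous_mm (hα : Continuous α) (hA : Continuous A) (hB : Continuous B)
    (hζ : Continuous ζ) (hC : Continuous C) (hd : Continuous d) (hh : Continuous h) :
    Continuous fun x => mm (α x) (A x) (B x) (ζ x) (C x) (d x) (h x) := by
  unfold mm
  fun_prop

@[fun_prop] theorem continuous_S3 (hr : Continuous r) (hα : Continuous α) (hω : Continuous ω)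
    (hA : Continuous A) (hB : Continuous B) (hC : Continuous C)
    (hd : Continuous d) (hh : Continuous h) :
    Continuous fun x => S3 (r x) (α x) (ω x) (A x) (B x) (C x) (d x) (h x) := by
  unfold S3
  fun_prop

@[fun_prop] theorem continuous_S5 (hr : Continuous r) (hα : Continuous α) (hω : Continuous ω)
    (hA : Continuous A) (hB : Continuous B) (hC : Continuous C)
    (hd : Continuous d) (hh : Continuous h) :
    Continuous fun x => S5 (r x) (α x) (ω x) (A x) (B x) (C x) (d x) (h x) := by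
  unfold S5
  fun_prop

@[fun_prop] theorem continuous_S4 (hr : Continuous r) (hω : Continuous ω)
    (hA : Continuous A) (hB : Continuous B) (hC : Continuous C)
    (hd : Continuous d) (hh : Continuous h) :
    Continuous fun x => S4 (r x) (ω x) (A x) (B x) (C x) (d x) (h x) := by
  unfold S4
  fun_prop

end continuity

theorem norm_le_of_normSq_le {z : ℂ} (h : Complex.normSq z ≤ 4) : ‖z‖ ≤ 3 := by
  rw [Complex.normSq_eq_norm_sq] at h
  nlinarith [norm_nonneg z]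

/-- The first compact set. -/
def K1 (ρ : ℝ) : Set (ℝ × ℂ × ℂ × ℂ × ℝ × ℝ × ℂ) :=
  {p | p.1 ∈ Set.Icc (0 : ℝ) 1 ∧
    Bad p.1 p.2.1 p.2.2.1 p.2.2.2.1 p.2.2.2.2.1 p.2.2.2.2.2.1 p.2.2.2.2.2.2 ∧
    p.2.2.2.2.2.1 ^ 2 + Complex.normSq p.2.2.2.2.2.2 = 1 ∧ ρ ≤ ‖p.2.2.2.1‖}

theorem bad_iff {a : ℝ} {A B ζ : ℂ} {C d : ℝ} {h : ℂ} : Bad a A B ζ C d h ↔
    A * conj B = -ζ ^ 2 ∧ Complex.normSq A + Complex.normSq B + 2 * Complex.normSq ζ = 4 ∧
    Complex.normSq A ≤ Complex.normSq B ∧ C ∈ Set.Icc (-1 : ℝ) 1 ∧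
    h + a * conj (Dw4 A B ζ C d h) = 0 ∧ Dw3z A B ζ C d h = 0 ∧
    (Dz4 A B ζ C d h).re - a * (Dw5z A B ζ C d h).im = 0 :=
  ⟨fun H => ⟨H.rel, H.nrm, H.ord, H.hC, H.e1, H.e3, H.e4⟩,
    fun H => ⟨H.1, H.2.1, H.2.2.1, H.2.2.2.1, H.2.2.2.2.1, H.2.2.2.2.2.1, H.2.2.2.2.2.2⟩⟩

theorem isClosed_K1 (ρ : ℝ) : IsClosed (K1 ρ) := by
  have cA : Continuous fun p : ℝ × ℂ × ℂ × ℂ × ℝ × ℝ × ℂ => p.2.1 := by fun_prop
  have cB : Continuous fun p : ℝ × ℂ × ℂ × ℂ × ℝ × ℝ × ℂ => p.2.2.1 := by fun_prop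
  have cζ : Continuous fun p : ℝ × ℂ × ℂ × ℂ × ℝ × ℝ × ℂ => p.2.2.2.1 := by fun_prop
  have cC : Continuous fun p : ℝ × ℂ × ℂ × ℂ × ℝ × ℝ × ℂ => p.2.2.2.2.1 := by fun_prop
  have cd : Continuous fun p : ℝ × ℂ × ℂ × ℂ × ℝ × ℝ × ℂ => p.2.2.2.2.2.1 := by fun_prop
  have ch : Continuous fun p : ℝ × ℂ × ℂ × ℂ × ℝ × ℝ × ℂ => p.2.2.2.2.2.2 := by fun_prop
  simp only [K1, bad_iff, Set.mem_Icc, and_assoc]
  refine IsClosed.and (isClosed_le (by fun_prop) (by fun_prop)) ?_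
  refine IsClosed.and (isClosed_le (by fun_prop) (by fun_prop)) ?_
  refine IsClosed.and (isClosed_eq (by fun_prop) (by fun_prop)) ?_
  refine IsClosed.and (isClosed_eq (by fun_prop) (by fun_prop)) ?_
  refine IsClosed.and (isClosed_le (by fun_prop) (by fun_prop)) ?_
  refine IsClosed.and (isClosed_le (by fun_prop) (by fun_prop)) ?_
  refine IsClosed.and (isClosed_le (by fun_prop) (by fun_prop)) ?_
  refine IsClosed.and (isClosed_eq (by fun_prop) (by fun_prop)) ?_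
  refine IsClosed.and (isClosed_eq (by fun_prop) (by fun_prop)) ?_
  refine IsClosed.and (isClosed_eq (by fun_prop) (by fun_prop)) ?_
  refine IsClosed.and (isClosed_eq (by fun_prop) (by fun_prop)) ?_
  exact isClosed_le (by fun_prop) (by fun_prop)

theorem isCompact_K1 (ρ : ℝ) : IsCompact (K1 ρ) := by
  refine Metric.isCompact_of_isClosed_isBounded (isClosed_K1 ρ) ?_
  refine (Metric.isBounded_closedBall (x := (0 : ℝ × ℂ × ℂ × ℂ × ℝ × ℝ × ℂ)) (r := 3)).subset ?_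
  rintro ⟨a, A, B, ζ, C, d, h⟩ ⟨ha, hb, hd, -⟩
  have h1 := Complex.normSq_nonneg A
  have h2 := Complex.normSq_nonneg B
  have h3 := Complex.normSq_nonneg ζ
  have h4 := Complex.normSq_nonneg h
  have h5 := hb.nrm
  have h6 := hb.hC
  simp only [Set.mem_Icc] at ha h6 h1 h2 h3 h4 h5 hd
  rw [mem_closedBall_zero_iff]
  simp only [Prod.norm_def, sup_le_iff, Real.norm_eq_abs]
  refine ⟨?_, ?_, ?_, ?_, ?_, ?_, ?_⟩
  · exact abs_le.2 ⟨by linarith, by linarith⟩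
  · exact norm_le_of_normSq_le (by linarith)
  · exact norm_le_of_normSq_le (by linarith)
  · exact norm_le_of_normSq_le (by linarith)
  · exact abs_le.2 ⟨by linarith, by linarith⟩
  · exact abs_le.2 ⟨by nlinarith, by nlinarith⟩
  · exact norm_le_of_normSq_le (by nlinarith [sq_nonneg d])

theorem K1_pos {ρ : ℝ} (hρ : 0 < ρ) : ∀ p ∈ K1 ρ, 0 < p.1 := by
  rintro ⟨a, A, B, ζ, C, d, h⟩ ⟨ha, hb, hd, hζ⟩
  simp only at ha hb hd hζ ⊢
  rcases ha.1.lt_or_eq with h0 | h0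
  · exact h0
  exfalso
  subst h0
  have hh : h = 0 := by simpa using hb.e1
  subst hh
  have hd0 : d ≠ 0 := by
    rintro rfl
    norm_num at hd
  have hζ0 := zeta_eq_zero hb.rel hb.nrm hb.ord hd0 hb.e3 (by simpa using hb.e4)
  rw [hζ0, norm_zero] at hζ
  linarith

/-- The second compact set: `(r, α, ω, A, B, C, d, h)`. -/
def K2 : Set (ℝ × ℝ × ℂ × ℂ × ℂ × ℝ × ℝ × ℂ) :=
  {p | p.1 ∈ Set.Icc (0 : ℝ) 1 ∧ p.2.1 ^ 2 + Complex.normSq p.2.2.1 = 1 ∧
    p.2.2.2.1 * conj p.2.2.2.2.1 = -(p.1 * p.2.2.1) ^ 2 ∧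
    Complex.normSq p.2.2.2.1 + Complex.normSq p.2.2.2.2.1 +
      2 * Complex.normSq (p.1 * p.2.2.1) = 4 ∧
    Complex.normSq p.2.2.2.1 ≤ Complex.normSq p.2.2.2.2.1 ∧
    p.2.2.2.2.2.1 ∈ Set.Icc (-1 : ℝ) 1 ∧
    p.2.2.2.2.2.2.1 ^ 2 + Complex.normSq p.2.2.2.2.2.2.2 = 1 ∧
    p.2.2.2.2.2.2.2 = ((p.1 * p.2.1 : ℝ) : ℂ) * hp p.2.2.2.1 p.2.2.2.2.1 (p.1 * p.2.2.1)
      p.2.2.2.2.2.1 p.2.2.2.2.2.2.1 p.2.2.2.2.2.2.2 ∧
    S3 p.1 p.2.1 p.2.2.1 p.2.2.2.1 p.2.2.2.2.1 p.2.2.2.2.2.1 p.2.2.2.2.2.2.1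
      p.2.2.2.2.2.2.2 = 0 ∧
    (S4 p.1 p.2.2.1 p.2.2.2.1 p.2.2.2.2.1 p.2.2.2.2.2.1 p.2.2.2.2.2.2.1
      p.2.2.2.2.2.2.2).re - p.2.1 * (S5 p.1 p.2.1 p.2.2.1 p.2.2.2.1 p.2.2.2.2.1
      p.2.2.2.2.2.1 p.2.2.2.2.2.2.1 p.2.2.2.2.2.2.2).im = 0}

theorem isClosed_K2 : IsClosed K2 := by
  simp only [K2, Set.mem_Icc, and_assoc]
  refine IsClosed.and (isClosed_le (by fun_prop) (by fun_prop)) ?_
  refine IsClosed.and (isClosed_le (by fun_prop) (by fun_prop)) ?_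
  refine IsClosed.and (isClosed_eq (by fun_prop) (by fun_prop)) ?_
  refine IsClosed.and (isClosed_eq (by fun_prop) (by fun_prop)) ?_
  refine IsClosed.and (isClosed_eq (by fun_prop) (by fun_prop)) ?_
  refine IsClosed.and (isClosed_le (by fun_prop) (by fun_prop)) ?_
  refine IsClosed.and (isClosed_le (by fun_prop) (by fun_prop)) ?_
  refine IsClosed.and (isClosed_le (by fun_prop) (by fun_prop)) ?_
  refine IsClosed.and (isClosed_eq (by fun_prop) (by fun_prop)) ?_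
  refine IsClosed.and (isClosed_eq (by fun_prop) (by fun_prop)) ?_
  refine IsClosed.and (isClosed_eq (by fun_prop) (by fun_prop)) ?_
  exact isClosed_eq (by fun_prop) (by fun_prop)

theorem isCompact_K2 : IsCompact K2 := by
  refine Metric.isCompact_of_isClosed_isBounded isClosed_K2 ?_
  refine (Metric.isBounded_closedBall
    (x := (0 : ℝ × ℝ × ℂ × ℂ × ℂ × ℝ × ℝ × ℂ)) (r := 3)).subset ?_
  rintro ⟨r, α, ω, A, B, C, d, h⟩ ⟨hr, hα, -, hn, -, hC, hd, -⟩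
  have h1 := Complex.normSq_nonneg A
  have h2 := Complex.normSq_nonneg B
  have h3 := Complex.normSq_nonneg ω
  have h4 := Complex.normSq_nonneg h
  have h5 := Complex.normSq_nonneg ((r : ℂ) * ω)
  simp only [Set.mem_Icc] at hr hα hn hC h1 h2 h3 h4 h5 hd
  rw [mem_closedBall_zero_iff]
  simp only [Prod.norm_def, sup_le_iff, Real.norm_eq_abs]
  refine ⟨?_, ?_, ?_, ?_, ?_, ?_, ?_, ?_⟩
  · exact abs_le.2 ⟨by linarith, by linarith⟩
  · exact abs_le.2 ⟨by nlinarith, by nlinarith⟩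
  · exact norm_le_of_normSq_le (by nlinarith [sq_nonneg α])
  · exact norm_le_of_normSq_le (by linarith)
  · exact norm_le_of_normSq_le (by linarith)
  · exact abs_le.2 ⟨by linarith, by linarith⟩
  · exact abs_le.2 ⟨by nlinarith, by nlinarith⟩
  · exact norm_le_of_normSq_le (by nlinarith [sq_nonneg d])

theorem K2_pos : ∀ p ∈ K2, 0 < p.1 := by
  rintro ⟨r, α, ω, A, B, C, d, h⟩ ⟨hr, hα, hrel, hn, hord, hC, hd, e1, e3, e4⟩
  simp only at hr hα hrel hn hord hC hd e1 e3 e4 ⊢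
  rcases hr.1.lt_or_eq with h0 | h0
  · exact h0
  exfalso
  subst h0
  exact limit2 hα hrel hn hord hd e1 e3 e4

/-- **Core statement.** For all sufficiently small `a > 0` the bad equations have only the
trivial solution. -/
theorem exists_good : ∃ δ : ℝ, 0 < δ ∧ ∀ a : ℝ, 0 < a → a ≤ δ → ∀ (A B ζ : ℂ) (C d : ℝ) (h : ℂ),
    Bad a A B ζ C d h → d = 0 ∧ h = 0 := by
  obtain ⟨ρ₀, hρ₀, hρ₀2⟩ := isCompact_K2.exists_forall_le' (f := fun p => p.1)
    continuous_fst.continuousOn K2_pos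
  obtain ⟨ρ, hρ, hρle, hρ2⟩ : ∃ ρ : ℝ, 0 < ρ ∧ ρ ≤ 1 ∧ ∀ p ∈ K2, ρ ≤ p.1 :=
    ⟨min ρ₀ 1, lt_min hρ₀ one_pos, min_le_right _ _, fun p hp =>
      (min_le_left _ _).trans (hρ₀2 p hp)⟩
  obtain ⟨δ, hδ, hδ1⟩ := (isCompact_K1 (ρ / 2)).exists_forall_le' (f := fun p => p.1)
    continuous_fst.continuousOn (K1_pos (half_pos hρ))
  refine ⟨min (δ / 2) (min (ρ / 2) (1 / 2)), by positivity, ?_⟩
  intro a ha had A B ζ C d h hb
  by_contra hne
  have had1 : a ≤ δ / 2 := had.trans (min_le_left _ _)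
  have had2 : a ≤ ρ / 2 := had.trans ((min_le_right _ _).trans (min_le_left _ _))
  have had3 : a ≤ 1 / 2 := had.trans ((min_le_right _ _).trans (min_le_right _ _))
  -- normalise
  have hpos : 0 < d ^ 2 + Complex.normSq h := by
    rcases eq_or_ne d 0 with h0 | h0
    · have h1 : h ≠ 0 := fun h1 => hne ⟨h0, h1⟩
      have := Complex.normSq_pos.2 h1
      positivity
    · have := Complex.normSq_nonneg h
      positivity
  obtain ⟨s, hs⟩ : ∃ s : ℝ, s = (Real.sqrt (d ^ 2 + Complex.normSq h))⁻¹ := ⟨_, rfl⟩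
  have hs2 : s ^ 2 * (d ^ 2 + Complex.normSq h) = 1 := by
    rw [hs, inv_pow, Real.sq_sqrt hpos.le]
    exact inv_mul_cancel₀ hpos.ne'
  have hb' := hb.smul s
  have hn : (s * d) ^ 2 + Complex.normSq (s * h) = 1 := by
    rw [Complex.normSq_mul, Complex.normSq_ofReal]
    linear_combination hs2
  rcases le_or_gt (ρ / 2) ‖ζ‖ with hζ | hζ
  · have := hδ1 (a, A, B, ζ, C, s * d, s * h) ⟨⟨ha.le, by linarith⟩, hb', hn, hζ⟩
    simp only at this
    linarith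
  · have hr0 : 0 < a ^ 2 + Complex.normSq ζ := by
      have := Complex.normSq_nonneg ζ
      positivity
    obtain ⟨r, hr⟩ : ∃ r : ℝ, r = Real.sqrt (a ^ 2 + Complex.normSq ζ) := ⟨_, rfl⟩
    have hrpos : 0 < r := by rw [hr]; exact Real.sqrt_pos.2 hr0
    have hr2 : r ^ 2 = a ^ 2 + Complex.normSq ζ := by rw [hr, Real.sq_sqrt hr0.le]
    have hrC : (r : ℂ) ≠ 0 := by exact_mod_cast hrpos.ne'
    have hrρ : r < ρ := by
      have h1 : Complex.normSq ζ < (ρ / 2) ^ 2 := by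
        rw [Complex.normSq_eq_norm_sq]
        nlinarith [norm_nonneg ζ]
      nlinarith
    have e1 : r * (a / r) = a := by field_simp
    have e2 : (r : ℂ) * (ζ / r) = ζ := by field_simp
    have hb'' : Bad (r * (a / r)) A B (r * (ζ / r)) C (s * d) (s * h) := by
      rw [e1, e2]; exact hb'
    obtain ⟨k3, k4⟩ := hb''.scaled hrpos.ne'
    have hsum : (a / r) ^ 2 + Complex.normSq (ζ / r) = 1 := by
      rw [Complex.normSq_div, Complex.normSq_ofReal, ← pow_two, div_pow, ← add_div, ← hr2]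
      exact div_self (pow_ne_zero 2 hrpos.ne')
    have hmem := hρ2 (r, a / r, ζ / r, A, B, C, s * d, s * h)
      ⟨⟨hrpos.le, by linarith⟩, hsum, hb''.rel, hb''.nrm, hb''.ord, hb''.hC, hn, hb''.h_eq,
        k3, k4⟩
    simp only at hmem
    linarith

end Pool.Agent.TotallySkew.RP2
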