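import Mathlib

/-!
Algebraic core of the totally skew embedding of the projective plane in `ℝ⁷`.

The data of two points `x = c p + s b`, `y = c p - s b` of the unit sphere (`p`, `b` orthonormal,
`n = p × b`) and of a functional `D f = t f(x) + t' f(y) + df_x(u) + df_y(v)` are encoded by
`A = w(p) + i w(b)`, `B = w(p) - i w(b)`, `ζ = p₃ + i b₃`, `C = c² - s²`, a real number `d` and a
complex number `h = D(w z)`.
-/

open ComplexConjugate

namespace Pool.Agent.TotallySkew.RP2

/-- third coordinate of the normal vector -/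
noncomputable def n3 (A B : ℂ) : ℝ := (Complex.normSq B - Complex.normSq A) / 4

/-- `w` of the normal vector -/
noncomputable def nw (A B ζ : ℂ) : ℂ := (A * conj ζ - B * ζ) / 2

/-- scalar product of `h` and the normal vector -/
noncomputable def mu (A B ζ h : ℂ) : ℝ := (conj h * nw A B ζ).re

/-- scalar product of `h` and `p + i b` -/
noncomputable def eta (A B h : ℂ) : ℂ := (conj h * A + h * conj B) / 2

/-- the normal functional on `exp (i α)` -/
noncomputable def nu (A B ζ h : ℂ) : ℂ := ζ * mu A B ζ h + n3 A B * eta A B h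

/-- the tangential functional on `1` -/
noncomputable def ep (A B ζ h : ℂ) : ℝ := -6 * n3 A B * mu A B ζ h

/-- half of the tangential functional on `exp (2 i α)` -/
noncomputable def ee (A B ζ h : ℂ) : ℂ := ζ * eta A B h

/-- the tangential functional on `exp (4 i α)` -/
noncomputable def tau4 (C d ε : ℝ) (e : ℂ) : ℂ :=
  ((8 * C * e.re - (1 + 2 * C ^ 2) * ε : ℝ) : ℂ) + Complex.I * ((8 * d + 4 * C ^ 3 * e.im : ℝ) : ℂ)

/-- the tangential functional on `exp (6 i α)` -/
noncomputable def tau6 (C d ε : ℝ) (e : ℂ) : ℂ :=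
  ((6 * (4 * C ^ 2 - 1) * e.re - 8 * C ^ 3 * ε : ℝ) : ℂ) +
    Complex.I * ((32 * C * d + (16 * C ^ 4 - 8 * C ^ 2 - 2) * e.im : ℝ) : ℂ)

/-- the normal functional on `exp (3 i α)` -/
noncomputable def nu3 (C : ℝ) (ν : ℂ) : ℂ := 2 * C * ν - conj ν

/-- the normal functional on `exp (5 i α)` -/
noncomputable def nu5 (C : ℝ) (ν : ℂ) : ℂ := (4 * C ^ 2 - 1) * ν - 2 * C * conj ν

/-- The functional on the fourth power of a linear form. -/
noncomputable def form4 (A B N t4 t2 : ℂ) (ε : ℝ) (v3 v1 : ℂ) : ℂ :=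
  (B ^ 4 * t4 + 4 * B ^ 3 * A * t2 + 6 * A ^ 2 * B ^ 2 * ε + 4 * A ^ 3 * B * conj t2
    + A ^ 4 * conj t4) / 16
  + N / 2 * (B ^ 3 * v3 + 3 * B ^ 2 * A * v1 + 3 * B * A ^ 2 * conj v1 + A ^ 3 * conj v3)

/-- The functional on `w³ z`. The slots `z`, `m3`, `m1` are meant to be `ζ`, `ν₃`, `ν`; the
expression is homogeneous in these three. -/
noncomputable def form31 (A B N : ℂ) (k : ℝ) (t4 t2 : ℂ) (ε : ℝ) (v3 v1 z m3 m1 : ℂ) : ℂ :=
  (B ^ 3 * conj z * t4 + (3 * B ^ 2 * A * conj z + B ^ 3 * z) * t2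
    + (3 * B * A ^ 2 * conj z + 3 * B ^ 2 * A * z) * ε
    + (A ^ 3 * conj z + 3 * B * A ^ 2 * z) * conj t2 + A ^ 3 * z * conj t4) / 16
  + 3 * N / 8 * (B ^ 2 * conj z * v3 + (2 * A * B * conj z + B ^ 2 * z) * v1
    + (A ^ 2 * conj z + 2 * A * B * z) * conj v1 + A ^ 2 * z * conj v3)
  + k / 8 * (B ^ 3 * m3 + 3 * B ^ 2 * A * m1 + 3 * B * A ^ 2 * conj m1 + A ^ 3 * conj m3)

/-- The functional on `w⁵ z`. The slots `z`, `m5`, `m3`, `m1` are meant to be `ζ`, `ν₅`, `ν₃`,
`ν`; the expression is homogeneous in these four. -/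
noncomputable def form51 (A B N : ℂ) (k : ℝ) (t6 t4 t2 : ℂ) (ε : ℝ)
    (v5 v3 v1 z m5 m3 m1 : ℂ) : ℂ :=
  (B ^ 5 * conj z * t6 + (5 * B ^ 4 * A * conj z + B ^ 5 * z) * t4
    + (10 * B ^ 3 * A ^ 2 * conj z + 5 * B ^ 4 * A * z) * t2
    + (10 * B ^ 2 * A ^ 3 * conj z + 10 * B ^ 3 * A ^ 2 * z) * ε
    + (5 * B * A ^ 4 * conj z + 10 * B ^ 2 * A ^ 3 * z) * conj t2
    + (A ^ 5 * conj z + 5 * B * A ^ 4 * z) * conj t4 + A ^ 5 * z * conj t6) / 64
  + 5 * N / 32 * (B ^ 4 * conj z * v5 + (4 * B ^ 3 * A * conj z + B ^ 4 * z) * v3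
    + (6 * B ^ 2 * A ^ 2 * conj z + 4 * B ^ 3 * A * z) * v1
    + (4 * B * A ^ 3 * conj z + 6 * B ^ 2 * A ^ 2 * z) * conj v1
    + (A ^ 4 * conj z + 4 * B * A ^ 3 * z) * conj v3 + A ^ 4 * z * conj v5)
  + k / 32 * (B ^ 5 * m5 + 5 * B ^ 4 * A * m3 + 10 * B ^ 3 * A ^ 2 * m1
    + 10 * B ^ 2 * A ^ 3 * conj m1 + 5 * B * A ^ 4 * conj m3 + A ^ 5 * conj m5)

/-- `D (w⁴)` -/
noncomputable def Dw4 (A B ζ : ℂ) (C d : ℝ) (h : ℂ) : ℂ :=
  form4 A B (nw A B ζ) (tau4 C d (ep A B ζ h) (ee A B ζ h)) (2 * ee A B ζ h) (ep A B ζ h)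
    (nu3 C (nu A B ζ h)) (nu A B ζ h)

/-- `D (z⁴)` -/
noncomputable def Dz4 (A B ζ : ℂ) (C d : ℝ) (h : ℂ) : ℂ :=
  form4 ζ (conj ζ) (n3 A B) (tau4 C d (ep A B ζ h) (ee A B ζ h)) (2 * ee A B ζ h) (ep A B ζ h)
    (nu3 C (nu A B ζ h)) (nu A B ζ h)

/-- `D (w³ z)` -/
noncomputable def Dw3z (A B ζ : ℂ) (C d : ℝ) (h : ℂ) : ℂ :=
  form31 A B (nw A B ζ) (n3 A B) (tau4 C d (ep A B ζ h) (ee A B ζ h)) (2 * ee A B ζ h)
    (ep A B ζ h) (nu3 C (nu A B ζ h)) (nu A B ζ h) ζ (nu3 C (nu A B ζ h)) (nu A B ζ h)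

/-- `D (w⁵ z)` -/
noncomputable def Dw5z (A B ζ : ℂ) (C d : ℝ) (h : ℂ) : ℂ :=
  form51 A B (nw A B ζ) (n3 A B) (tau6 C d (ep A B ζ h) (ee A B ζ h))
    (tau4 C d (ep A B ζ h) (ee A B ζ h)) (2 * ee A B ζ h)
    (ep A B ζ h) (nu5 C (nu A B ζ h)) (nu3 C (nu A B ζ h)) (nu A B ζ h) ζ
    (nu5 C (nu A B ζ h)) (nu3 C (nu A B ζ h)) (nu A B ζ h)

/-- The equations satisfied by the data of a functional that vanishes on the space `W_a`,
apart from normalisation. -/
structure Bad (a : ℝ) (A B ζ : ℂ) (C d : ℝ) (h : ℂ) : Prop where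
  rel : A * conj B = -ζ ^ 2
  nrm : Complex.normSq A + Complex.normSq B + 2 * Complex.normSq ζ = 4
  ord : Complex.normSq A ≤ Complex.normSq B
  hC : C ∈ Set.Icc (-1 : ℝ) 1
  e1 : h + a * conj (Dw4 A B ζ C d h) = 0
  e3 : Dw3z A B ζ C d h = 0
  e4 : (Dz4 A B ζ C d h).re - a * (Dw5z A B ζ C d h).im = 0

section continuity

variable {X : Type*} [TopologicalSpace X] {A B N ζ h t6 t4 t2 v5 v3 v1 z m5 m3 m1 e : X → ℂ}
  {C d ε k : X → ℝ}

@[fun_prop] theorem continuous_n3 (hA : Continuous A) (hB : Continuous B) :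
    Continuous fun x => n3 (A x) (B x) := by
  unfold n3
  fun_prop

@[fun_prop] theorem continuous_nw (hA : Continuous A) (hB : Continuous B) (hζ : Continuous ζ) :
    Continuous fun x => nw (A x) (B x) (ζ x) := by
  unfold nw
  fun_prop

@[fun_prop] theorem continuous_mu (hA : Continuous A) (hB : Continuous B) (hζ : Continuous ζ)
    (hh : Continuous h) : Continuous fun x => mu (A x) (B x) (ζ x) (h x) := by
  unfold mu
  fun_prop

@[fun_prop] theorem continuous_eta (hA : Continuous A) (hB : Continuous B)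
    (hh : Continuous h) : Continuous fun x => eta (A x) (B x) (h x) := by
  unfold eta
  fun_prop

@[fun_prop] theorem continuous_nu (hA : Continuous A) (hB : Continuous B) (hζ : Continuous ζ)
    (hh : Continuous h) : Continuous fun x => nu (A x) (B x) (ζ x) (h x) := by
  unfold nu
  fun_prop

@[fun_prop] theorem continuous_ep (hA : Continuous A) (hB : Continuous B) (hζ : Continuous ζ)
    (hh : Continuous h) : Continuous fun x => ep (A x) (B x) (ζ x) (h x) := by
  unfold ep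
  fun_prop

@[fun_prop] theorem continuous_ee (hA : Continuous A) (hB : Continuous B) (hζ : Continuous ζ)
    (hh : Continuous h) : Continuous fun x => ee (A x) (B x) (ζ x) (h x) := by
  unfold ee
  fun_prop

@[fun_prop] theorem continuous_tau4 (hC : Continuous C) (hd : Continuous d) (hε : Continuous ε)
    (he : Continuous e) : Continuous fun x => tau4 (C x) (d x) (ε x) (e x) := by
  unfold tau4
  fun_prop

@[fun_prop] theorem continuous_tau6 (hC : Continuous C) (hd : Continuous d) (hε : Continuous ε)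
    (he : Continuous e) : Continuous fun x => tau6 (C x) (d x) (ε x) (e x) := by
  unfold tau6
  fun_prop

@[fun_prop] theorem continuous_nu3 (hC : Continuous C) (he : Continuous e) :
    Continuous fun x => nu3 (C x) (e x) := by
  unfold nu3
  fun_prop

@[fun_prop] theorem continuous_nu5 (hC : Continuous C) (he : Continuous e) :
    Continuous fun x => nu5 (C x) (e x) := by
  unfold nu5
  fun_prop

@[fun_prop] theorem continuous_form4 (hA : Continuous A) (hB : Continuous B) (hN : Continuous N)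
    (h4 : Continuous t4) (h2 : Continuous t2) (hε : Continuous ε) (h3 : Continuous v3)
    (h1 : Continuous v1) :
    Continuous fun x => form4 (A x) (B x) (N x) (t4 x) (t2 x) (ε x) (v3 x) (v1 x) := by
  unfold form4
  fun_prop

@[fun_prop] theorem continuous_form31 (hA : Continuous A) (hB : Continuous B)
    (hN : Continuous N) (hk : Continuous k)
    (h4 : Continuous t4) (h2 : Continuous t2) (hε : Continuous ε) (h3 : Continuous v3)
    (h1 : Continuous v1) (hz : Continuous z) (hm3 : Continuous m3) (hm1 : Continuous m1) :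
    Continuous fun x => form31 (A x) (B x) (N x) (k x) (t4 x) (t2 x) (ε x) (v3 x) (v1 x)
      (z x) (m3 x) (m1 x) := by
  unfold form31
  fun_prop

@[fun_prop] theorem continuous_form51 (hA : Continuous A) (hB : Continuous B)
    (hN : Continuous N) (hk : Continuous k) (h6 : Continuous t6)
    (h4 : Continuous t4) (h2 : Continuous t2) (hε : Continuous ε) (h5 : Continuous v5)
    (h3 : Continuous v3)
    (h1 : Continuous v1) (hz : Continuous z) (hm5 : Continuous m5) (hm3 : Continuous m3)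
    (hm1 : Continuous m1) :
    Continuous fun x => form51 (A x) (B x) (N x) (k x) (t6 x) (t4 x) (t2 x) (ε x) (v5 x) (v3 x)
      (v1 x) (z x) (m5 x) (m3 x) (m1 x) := by
  unfold form51
  fun_prop

@[fun_prop] theorem continuous_Dw4 (hA : Continuous A) (hB : Continuous B) (hζ : Continuous ζ)
    (hC : Continuous C) (hd : Continuous d) (hh : Continuous h) :
    Continuous fun x => Dw4 (A x) (B x) (ζ x) (C x) (d x) (h x) := by
  unfold Dw4
  fun_prop

@[fun_prop] theorem continuous_Dz4 (hA : Continuous A) (hB : Continuous B) (hζ : Continuous ζ)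
    (hC : Continuous C) (hd : Continuous d) (hh : Continuous h) :
    Continuous fun x => Dz4 (A x) (B x) (ζ x) (C x) (d x) (h x) := by
  unfold Dz4
  fun_prop

@[fun_prop] theorem continuous_Dw3z (hA : Continuous A) (hB : Continuous B) (hζ : Continuous ζ)
    (hC : Continuous C) (hd : Continuous d) (hh : Continuous h) :
    Continuous fun x => Dw3z (A x) (B x) (ζ x) (C x) (d x) (h x) := by
  unfold Dw3z
  fun_prop

@[fun_prop] theorem continuous_Dw5z (hA : Continuous A) (hB : Continuous B) (hζ : Continuous ζ)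
    (hC : Continuous C) (hd : Continuous d) (hh : Continuous h) :
    Continuous fun x => Dw5z (A x) (B x) (ζ x) (C x) (d x) (h x) := by
  unfold Dw5z
  fun_prop

end continuity

end Pool.Agent.TotallySkew.RP2
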