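import Mathlib

/-!
The real projective plane as a smooth manifold: the quotient of the unit sphere of `ℝ³` by the
antipodal map, with charts given by local inverses of the projection followed by charts of the
sphere.
-/

open scoped Manifold ContDiff
open Metric

namespace Pool.Agent.TotallySkew

/-- The unit sphere of `ℝ³`. -/
def S2 : Type := sphere (0 : EuclideanSpace ℝ (Fin 3)) 1

/-- The topology of the sphere. -/
instance : TopologicalSpace S2 := instTopologicalSpaceSubtype

theorem fact_finrank : Fact (Module.finrank ℝ (EuclideanSpace ℝ (Fin 3)) = 2 + 1) :=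
  ⟨finrank_euclideanSpace_fin⟩

/-- The charts of the sphere (Mathlib's stereographic projections). -/
noncomputable instance : ChartedSpace (EuclideanSpace ℝ (Fin 2)) S2 :=
  @EuclideanSpace.instChartedSpaceSphere (EuclideanSpace ℝ (Fin 3)) _ _ 2 fact_finrank

/-- The antipodal equivalence relation on the sphere. -/
def antipodal : Setoid S2 where
  r x y := x.1 = y.1 ∨ x.1 = -y.1
  iseqv := by
    refine ⟨fun x => Or.inl rfl, ?_, ?_⟩
    · rintro x y (h | h)
      · exact Or.inl h.symm
      · exact Or.inr (by rw [h, neg_neg])
    · rintro x y z (h | h) (h' | h')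
      · exact Or.inl (h.trans h')
      · exact Or.inr (h.trans h')
      · exact Or.inr (by rw [h, h'])
      · exact Or.inl (by rw [h, h', neg_neg])

/-- The real projective plane: the sphere modulo the antipodal map. -/
def RP2 : Type := Quotient antipodal

/-- The quotient topology. -/
instance : TopologicalSpace RP2 := instTopologicalSpaceQuotient

/-- The projection from the sphere to the projective plane. -/
def proj (x : S2) : RP2 := Quotient.mk antipodal x

theorem proj_surjective : Function.Surjective proj := Quotient.mk_surjective

theorem proj_eq_iff' {x y : S2} : proj x = proj y ↔ x.1 = y.1 ∨ x.1 = -y.1 := Quotient.eq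

section action

/-- The group of real numbers of absolute value one is finite. -/
theorem finite_unit_reals : Finite (sphere (0 : ℝ) 1) := by
  have h : (sphere (0 : ℝ) 1) ⊆ {1, -1} := by
    intro x hx
    rw [mem_sphere_zero_iff_norm, Real.norm_eq_abs] at hx
    rcases (abs_eq zero_le_one).1 hx with h | h
    · exact Or.inl h
    · exact Or.inr h
  exact ((Set.toFinite ({1, -1} : Set ℝ)).subset h).to_subtype

/-- The action of `{1, -1}` on the unit sphere is free. -/
theorem isCancelSMul_sphere :
    IsCancelSMul (sphere (0 : ℝ) 1) (sphere (0 : EuclideanSpace ℝ (Fin 3)) 1) where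
  left_cancel' a b c h := smul_left_cancel a h
  right_cancel' a b c h := by
    have h1 : (a : ℝ) • (c : EuclideanSpace ℝ (Fin 3)) = (b : ℝ) • (c : EuclideanSpace ℝ (Fin 3)) :=
      congrArg Subtype.val h
    have hc : (c : EuclideanSpace ℝ (Fin 3)) ≠ 0 := by
      intro h0
      have := mem_sphere_zero_iff_norm.1 c.2
      rw [h0, norm_zero] at this
      exact zero_ne_one this
    exact Subtype.ext (smul_left_injective ℝ hc h1)

/-- The projection is a local homeomorphism. -/
theorem isLocalHomeomorph_proj : IsLocalHomeomorph proj := by
  have h1 := finite_unit_reals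
  have h2 := isCancelSMul_sphere
  have hq : @Topology.IsQuotientMap (sphere (0 : EuclideanSpace ℝ (Fin 3)) 1) RP2 _ _ proj :=
    isQuotientMap_quotient_mk'
  refine (Topology.IsQuotientMap.isQuotientCoveringMap_of_properlyDiscontinuousSMul
    (E := sphere (0 : EuclideanSpace ℝ (Fin 3)) 1)
    (G := sphere (0 : ℝ) 1) hq ?_).isCoveringMap.isLocalHomeomorph
  intro x y
  refine (proj_eq_iff' (x := x) (y := y)).trans ⟨?_, ?_⟩
  · rintro (h | h)
    · exact ⟨1, by rw [Subtype.ext h]; exact one_smul _ _⟩
    · refine ⟨⟨-1, by simp⟩, Subtype.ext ?_⟩
      change (-1 : ℝ) • y.1 = x.1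
      rw [h]
      simp
  · rintro ⟨g, hg⟩
    have hg' : |(g : ℝ)| = 1 := by
      have := mem_sphere_zero_iff_norm.1 g.2
      rwa [Real.norm_eq_abs] at this
    have hgx : x.1 = (g : ℝ) • y.1 := (congrArg Subtype.val hg).symm
    rcases (abs_eq zero_le_one).1 hg' with h | h
    · left
      rw [hgx, h, one_smul]
    · right
      rw [hgx, h, neg_smul, one_smul]

end action

/-- The charts of the projective plane: local inverses of the projection followed by charts of
the sphere. -/
noncomputable instance : ChartedSpace (EuclideanSpace ℝ (Fin 2)) RP2 :=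
  isLocalHomeomorph_proj.chartedSpace proj_surjective

end Pool.Agent.TotallySkew
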