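import Pool.Agent.TotallySkew.RP2Compact

/-!
The data of two points of the sphere and of a functional, written in an orthonormal frame, satisfy
the equations `Bad` if the functional vanishes on the space `W_a`.
-/

open ComplexConjugate

namespace Pool.Agent.TotallySkew.RP2

section harmonics

variable {E F A B N : ℂ} {t t' u1 u2 v1 v2 : ℂ}

/-- The functional on the fourth power of the linear form `(exp (i α) B + exp (- i α) A) / 2`. -/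
theorem form4_aux (hEF : E * F = 1) :
    t * ((E * B + F * A) / 2) ^ 4 + t' * ((F * B + E * A) / 2) ^ 4
    + 4 * ((E * B + F * A) / 2) ^ 3 * (u1 * (Complex.I / 2 * (E * B - F * A)) + u2 * N)
    + 4 * ((F * B + E * A) / 2) ^ 3 * (v1 * (Complex.I / 2 * (F * B - E * A)) + v2 * N) =
    (B ^ 4 * ((t + 4 * Complex.I * u1) * E ^ 4 + (t' + 4 * Complex.I * v1) * F ^ 4)
      + 4 * B ^ 3 * A * ((t + 2 * Complex.I * u1) * E ^ 2 + (t' + 2 * Complex.I * v1) * F ^ 2)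
      + 6 * A ^ 2 * B ^ 2 * (t + t')
      + 4 * A ^ 3 * B * ((t - 2 * Complex.I * u1) * F ^ 2 + (t' - 2 * Complex.I * v1) * E ^ 2)
      + A ^ 4 * ((t - 4 * Complex.I * u1) * F ^ 4 + (t' - 4 * Complex.I * v1) * E ^ 4)) / 16
    + N / 2 * (B ^ 3 * (u2 * E ^ 3 + v2 * F ^ 3) + 3 * B ^ 2 * A * (u2 * E + v2 * F)
      + 3 * B * A ^ 2 * (u2 * F + v2 * E) + A ^ 3 * (u2 * F ^ 3 + v2 * E ^ 3)) := by
  have hE : E ≠ 0 := left_ne_zero_of_mul_eq_one hEF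
  have hF : F = E⁻¹ := eq_inv_of_mul_eq_one_right hEF
  subst hF
  field_simp
  ring

/-- The functional on `w³ z`. -/
theorem form31_aux {z z' k : ℂ} (hEF : E * F = 1) :
    t * (((E * B + F * A) / 2) ^ 3 * ((E * z' + F * z) / 2))
    + t' * (((F * B + E * A) / 2) ^ 3 * ((F * z' + E * z) / 2))
    + (3 * ((E * B + F * A) / 2) ^ 2 * (u1 * (Complex.I / 2 * (E * B - F * A)) + u2 * N)
        * ((E * z' + F * z) / 2)
      + ((E * B + F * A) / 2) ^ 3 * (u1 * (Complex.I / 2 * (E * z' - F * z)) + u2 * k))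
    + (3 * ((F * B + E * A) / 2) ^ 2 * (v1 * (Complex.I / 2 * (F * B - E * A)) + v2 * N)
        * ((F * z' + E * z) / 2)
      + ((F * B + E * A) / 2) ^ 3 * (v1 * (Complex.I / 2 * (F * z' - E * z)) + v2 * k)) =
    (B ^ 3 * z' * ((t + 4 * Complex.I * u1) * E ^ 4 + (t' + 4 * Complex.I * v1) * F ^ 4)
      + (3 * B ^ 2 * A * z' + B ^ 3 * z)
        * ((t + 2 * Complex.I * u1) * E ^ 2 + (t' + 2 * Complex.I * v1) * F ^ 2)
      + (3 * B * A ^ 2 * z' + 3 * B ^ 2 * A * z) * (t + t')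
      + (A ^ 3 * z' + 3 * B * A ^ 2 * z)
        * ((t - 2 * Complex.I * u1) * F ^ 2 + (t' - 2 * Complex.I * v1) * E ^ 2)
      + A ^ 3 * z * ((t - 4 * Complex.I * u1) * F ^ 4 + (t' - 4 * Complex.I * v1) * E ^ 4)) / 16
    + 3 * N / 8 * (B ^ 2 * z' * (u2 * E ^ 3 + v2 * F ^ 3)
      + (2 * A * B * z' + B ^ 2 * z) * (u2 * E + v2 * F)
      + (A ^ 2 * z' + 2 * A * B * z) * (u2 * F + v2 * E)
      + A ^ 2 * z * (u2 * F ^ 3 + v2 * E ^ 3))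
    + k / 8 * (B ^ 3 * (u2 * E ^ 3 + v2 * F ^ 3) + 3 * B ^ 2 * A * (u2 * E + v2 * F)
      + 3 * B * A ^ 2 * (u2 * F + v2 * E) + A ^ 3 * (u2 * F ^ 3 + v2 * E ^ 3)) := by
  have hE : E ≠ 0 := left_ne_zero_of_mul_eq_one hEF
  have hF : F = E⁻¹ := eq_inv_of_mul_eq_one_right hEF
  subst hF
  field_simp
  ring

/-- The functional on `w⁵ z`. -/
theorem form51_aux {z z' k : ℂ} (hEF : E * F = 1) :
    t * (((E * B + F * A) / 2) ^ 5 * ((E * z' + F * z) / 2))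
    + t' * (((F * B + E * A) / 2) ^ 5 * ((F * z' + E * z) / 2))
    + (5 * ((E * B + F * A) / 2) ^ 4 * (u1 * (Complex.I / 2 * (E * B - F * A)) + u2 * N)
        * ((E * z' + F * z) / 2)
      + ((E * B + F * A) / 2) ^ 5 * (u1 * (Complex.I / 2 * (E * z' - F * z)) + u2 * k))
    + (5 * ((F * B + E * A) / 2) ^ 4 * (v1 * (Complex.I / 2 * (F * B - E * A)) + v2 * N)
        * ((F * z' + E * z) / 2)
      + ((F * B + E * A) / 2) ^ 5 * (v1 * (Complex.I / 2 * (F * z' - E * z)) + v2 * k)) =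
    (B ^ 5 * z' * ((t + 6 * Complex.I * u1) * E ^ 6 + (t' + 6 * Complex.I * v1) * F ^ 6)
      + (5 * B ^ 4 * A * z' + B ^ 5 * z)
        * ((t + 4 * Complex.I * u1) * E ^ 4 + (t' + 4 * Complex.I * v1) * F ^ 4)
      + (10 * B ^ 3 * A ^ 2 * z' + 5 * B ^ 4 * A * z)
        * ((t + 2 * Complex.I * u1) * E ^ 2 + (t' + 2 * Complex.I * v1) * F ^ 2)
      + (10 * B ^ 2 * A ^ 3 * z' + 10 * B ^ 3 * A ^ 2 * z) * (t + t')
      + (5 * B * A ^ 4 * z' + 10 * B ^ 2 * A ^ 3 * z)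
        * ((t - 2 * Complex.I * u1) * F ^ 2 + (t' - 2 * Complex.I * v1) * E ^ 2)
      + (A ^ 5 * z' + 5 * B * A ^ 4 * z)
        * ((t - 4 * Complex.I * u1) * F ^ 4 + (t' - 4 * Complex.I * v1) * E ^ 4)
      + A ^ 5 * z * ((t - 6 * Complex.I * u1) * F ^ 6 + (t' - 6 * Complex.I * v1) * E ^ 6)) / 64
    + 5 * N / 32 * (B ^ 4 * z' * (u2 * E ^ 5 + v2 * F ^ 5)
      + (4 * B ^ 3 * A * z' + B ^ 4 * z) * (u2 * E ^ 3 + v2 * F ^ 3)
      + (6 * B ^ 2 * A ^ 2 * z' + 4 * B ^ 3 * A * z) * (u2 * E + v2 * F)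
      + (4 * B * A ^ 3 * z' + 6 * B ^ 2 * A ^ 2 * z) * (u2 * F + v2 * E)
      + (A ^ 4 * z' + 4 * B * A ^ 3 * z) * (u2 * F ^ 3 + v2 * E ^ 3)
      + A ^ 4 * z * (u2 * F ^ 5 + v2 * E ^ 5))
    + k / 32 * (B ^ 5 * (u2 * E ^ 5 + v2 * F ^ 5) + 5 * B ^ 4 * A * (u2 * E ^ 3 + v2 * F ^ 3)
      + 10 * B ^ 3 * A ^ 2 * (u2 * E + v2 * F) + 10 * B ^ 2 * A ^ 3 * (u2 * F + v2 * E)
      + 5 * B * A ^ 4 * (u2 * F ^ 3 + v2 * E ^ 3) + A ^ 5 * (u2 * F ^ 5 + v2 * E ^ 5)) := by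
  have hE : E ≠ 0 := left_ne_zero_of_mul_eq_one hEF
  have hF : F = E⁻¹ := eq_inv_of_mul_eq_one_right hEF
  subst hF
  field_simp
  ring

end harmonics

section taus

variable {C S t t' u1 v1 e1 e2 d : ℝ} {e : ℂ}

theorem tau2_aux (he1 : e.im = S / 2 * (t - t') + C * (u1 + v1))
    (he2 : e.re = C * (t + t') / 2 - S * (u1 - v1)) :
    2 * e = (t + 2 * Complex.I * u1) * (C + Complex.I * S)
      + (t' + 2 * Complex.I * v1) * (C - Complex.I * S) := by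
  apply Complex.ext
  · simp [he2]; ring
  · simp [he1]; ring

theorem tau4_aux (hCS : C ^ 2 + S ^ 2 = 1) (he1 : e.im = S / 2 * (t - t') + C * (u1 + v1))
    (he2 : e.re = C * (t + t') / 2 - S * (u1 - v1))
    (hd : d = S ^ 2 / 2 * (C * e.im - (u1 + v1))) :
    tau4 C d (t + t') e = (t + 4 * Complex.I * u1) * (C + Complex.I * S) ^ 2
      + (t' + 4 * Complex.I * v1) * (C - Complex.I * S) ^ 2 := by
  have hCS' : (C : ℂ) ^ 2 + S ^ 2 = 1 := by exact_mod_cast hCS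
  rw [tau4, hd, he2]
  obtain ⟨k, hk⟩ : ∃ k, k = e.im := ⟨_, rfl⟩
  rw [← hk]
  have hk' : (k : ℂ) = S / 2 * (t - t') + C * (u1 + v1) := by rw [hk, he1]; push_cast; ring
  push_cast
  linear_combination ((t : ℂ) + t' + 4 * Complex.I * C * k) * hCS' 
    + 4 * Complex.I * C * hk'
    - ((t + t') * S ^ 2 + 4 * Complex.I * (u1 + v1) * S ^ 2 + 8 * C * S * (u1 - v1)) * Complex.I_sq

theorem tau6_aux (hCS : C ^ 2 + S ^ 2 = 1) (he1 : e.im = S / 2 * (t - t') + C * (u1 + v1))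
    (he2 : e.re = C * (t + t') / 2 - S * (u1 - v1))
    (hd : d = S ^ 2 / 2 * (C * e.im - (u1 + v1))) :
    tau6 C d (t + t') e = (t + 6 * Complex.I * u1) * (C + Complex.I * S) ^ 3
      + (t' + 6 * Complex.I * v1) * (C - Complex.I * S) ^ 3 := by
  have hCS' : (C : ℂ) ^ 2 + S ^ 2 = 1 := by exact_mod_cast hCS
  rw [tau6, hd, he2]
  obtain ⟨k, hk⟩ : ∃ k, k = e.im := ⟨_, rfl⟩
  rw [← hk]
  have hk' : (k : ℂ) = S / 2 * (t - t') + C * (u1 + v1) := by rw [hk, he1]; push_cast; ring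
  push_cast
  linear_combination (3 * (C : ℂ) * (t + t') - 6 * S * (u1 - v1) +
      Complex.I * (16 * C ^ 2 * k + S * (t - t') + 2 * C * (u1 + v1))) * hCS'
    + Complex.I * (8 * C ^ 2 - 2) * hk'
    - ((t + t') * 3 * C * S ^ 2 + (t - t') * Complex.I * S ^ 3
      + 6 * Complex.I * (u1 + v1) * 3 * C * S ^ 2 + 18 * (u1 - v1) * C ^ 2 * S
      + (Complex.I ^ 2 - 1) * 6 * (u1 - v1) * S ^ 3) * Complex.I_sq
end taus

/-- The complex number `q₀ + i q₁`. -/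
noncomputable def wc (q0 q1 : ℝ) : ℂ := q0 + q1 * Complex.I

/-- The functional `t δ_x + t' δ_y + ∂_u(x) + ∂_v(y)` vanishes on the space `W_a` spanned by
`1 - 3 z²` and the real and imaginary parts of `w²`, `w z + a w̄⁴`, `w³ z`, and by
`z⁴ - a Im (w⁵ z)`. -/
structure Kills (a t t' x0 x1 x2 y0 y1 y2 u0 u1 u2 v0 v1 v2 : ℝ) : Prop where
  k0 : t * (1 - 3 * x2 ^ 2) + t' * (1 - 3 * y2 ^ 2) - 6 * x2 * u2 - 6 * y2 * v2 = 0
  k2 : (t : ℂ) * wc x0 x1 ^ 2 + t' * wc y0 y1 ^ 2 + 2 * wc x0 x1 * wc u0 u1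
    + 2 * wc y0 y1 * wc v0 v1 = 0
  k1 : ((t : ℂ) * (wc x0 x1 * x2) + t' * (wc y0 y1 * y2) + (wc u0 u1 * x2 + wc x0 x1 * u2)
    + (wc v0 v1 * y2 + wc y0 y1 * v2)) + a * conj (t * wc x0 x1 ^ 4 + t' * wc y0 y1 ^ 4
    + 4 * wc x0 x1 ^ 3 * wc u0 u1 + 4 * wc y0 y1 ^ 3 * wc v0 v1) = 0
  k3 : (t : ℂ) * (wc x0 x1 ^ 3 * x2) + t' * (wc y0 y1 ^ 3 * y2)
    + (3 * wc x0 x1 ^ 2 * wc u0 u1 * x2 + wc x0 x1 ^ 3 * u2)
    + (3 * wc y0 y1 ^ 2 * wc v0 v1 * y2 + wc y0 y1 ^ 3 * v2) = 0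
  k4 : (t * x2 ^ 4 + t' * y2 ^ 4 + 4 * x2 ^ 3 * u2 + 4 * y2 ^ 3 * v2)
    - a * ((t : ℂ) * (wc x0 x1 ^ 5 * x2) + t' * (wc y0 y1 ^ 5 * y2)
    + (5 * wc x0 x1 ^ 4 * wc u0 u1 * x2 + wc x0 x1 ^ 5 * u2)
    + (5 * wc y0 y1 ^ 4 * wc v0 v1 * y2 + wc y0 y1 ^ 5 * v2)).im = 0

section quadratic

variable {t t' x0 x1 x2 y0 y1 y2 u0 u1 u2 v0 v1 v2 : ℝ}

/-- The symmetric bilinear form determined by a functional vanishing on `1 - 3 z²` and `w²`. -/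
theorem quad_form {h0 h1 : ℝ}
    (hx : x0 ^ 2 + x1 ^ 2 + x2 ^ 2 = 1) (hy : y0 ^ 2 + y1 ^ 2 + y2 ^ 2 = 1)
    (hu : x0 * u0 + x1 * u1 + x2 * u2 = 0) (hv : y0 * v0 + y1 * v1 + y2 * v2 = 0)
    (k0 : t * (1 - 3 * x2 ^ 2) + t' * (1 - 3 * y2 ^ 2) - 6 * x2 * u2 - 6 * y2 * v2 = 0)
    (k2 : (t : ℂ) * wc x0 x1 ^ 2 + t' * wc y0 y1 ^ 2 + 2 * wc x0 x1 * wc u0 u1
      + 2 * wc y0 y1 * wc v0 v1 = 0)
    (hh0 : h0 = t * (x0 * x2) + t' * (y0 * y2) + (u0 * x2 + x0 * u2) + (v0 * y2 + y0 * v2))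
    (hh1 : h1 = t * (x1 * x2) + t' * (y1 * y2) + (u1 * x2 + x1 * u2) + (v1 * y2 + y1 * v2))
    (q0 q1 q2 r0 r1 r2 : ℝ) :
    t * (q0 * x0 + q1 * x1 + q2 * x2) * (r0 * x0 + r1 * x1 + r2 * x2)
    + t' * (q0 * y0 + q1 * y1 + q2 * y2) * (r0 * y0 + r1 * y1 + r2 * y2)
    + (q0 * x0 + q1 * x1 + q2 * x2) * (r0 * u0 + r1 * u1 + r2 * u2)
    + (q0 * u0 + q1 * u1 + q2 * u2) * (r0 * x0 + r1 * x1 + r2 * x2)
    + (q0 * y0 + q1 * y1 + q2 * y2) * (r0 * v0 + r1 * v1 + r2 * v2)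
    + (q0 * v0 + q1 * v1 + q2 * v2) * (r0 * y0 + r1 * y1 + r2 * y2) =
    (t + t') / 3 * (q0 * r0 + q1 * r1 + q2 * r2) + q2 * (h0 * r0 + h1 * r1)
      + r2 * (h0 * q0 + h1 * q1) := by
  have hre := congrArg Complex.re k2
  have him := congrArg Complex.im k2
  simp [wc, pow_two] at hre him
  have T22 : t * x2 ^ 2 + t' * y2 ^ 2 + 2 * (x2 * u2) + 2 * (y2 * v2) = (t + t') / 3 := by
    linear_combination (-1 / 3) * k0
  have T01 : t * (x0 * x1) + t' * (y0 * y1) + (x0 * u1 + u0 * x1) + (y0 * v1 + v0 * y1) = 0 := by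
    linear_combination him / 2
  have T00 : t * x0 ^ 2 + t' * y0 ^ 2 + 2 * (x0 * u0) + 2 * (y0 * v0) = (t + t') / 3 := by
    linear_combination hre / 2 - T22 / 2 + t / 2 * hx + t' / 2 * hy + hu + hv
  have T11 : t * x1 ^ 2 + t' * y1 ^ 2 + 2 * (x1 * u1) + 2 * (y1 * v1) = (t + t') / 3 := by
    linear_combination -hre / 2 - T22 / 2 + t / 2 * hx + t' / 2 * hy + hu + hv
  rw [hh0, hh1]
  linear_combination (q0 * r0) * T00 + (q1 * r1) * T11 + (q2 * r2) * T22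
    + (q0 * r1 + q1 * r0) * T01

end quadratic

end Pool.Agent.TotallySkew.RP2
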