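import Pool.Agent.TotallySkew.RP2Bad

/-!
For small `a > 0`, a functional carried by the 1-jets at two distinct non antipodal points of the
sphere that vanishes on `W_a` is zero.
-/

open ComplexConjugate

namespace Pool.Agent.TotallySkew.RP2

section complete

variable {c s p0 p1 p2 b0 b1 b2 n0 n1 n2 : ℝ}

theorem Frame.complete (H : Frame c s p0 p1 p2 b0 b1 b2 n0 n1 n2) (u0 u1 u2 : ℝ) :
    u0 = (p0 * u0 + p1 * u1 + p2 * u2) * p0 + (b0 * u0 + b1 * u1 + b2 * u2) * b0 +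
      (n0 * u0 + n1 * u1 + n2 * u2) * n0 ∧
    u1 = (p0 * u0 + p1 * u1 + p2 * u2) * p1 + (b0 * u0 + b1 * u1 + b2 * u2) * b1 +
      (n0 * u0 + n1 * u1 + n2 * u2) * n1 ∧
    u2 = (p0 * u0 + p1 * u1 + p2 * u2) * p2 + (b0 * u0 + b1 * u1 + b2 * u2) * b2 +
      (n0 * u0 + n1 * u1 + n2 * u2) * n2 := by
  have d0 : p0 * p0 + b0 * b0 + n0 * n0 = 1 := by
    rw [H.hn0]
    linear_combination (b1 ^ 2 + b2 ^ 2) * H.hpp + (1 - p0 ^ 2) * H.hbb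
      - (p1 * b1 + p2 * b2 - p0 * b0) * H.hpb
  have d1 : p1 * p1 + b1 * b1 + n1 * n1 = 1 := by
    rw [H.hn1]
    linear_combination (b0 ^ 2 + b2 ^ 2) * H.hpp + (1 - p1 ^ 2) * H.hbb
      - (p0 * b0 + p2 * b2 - p1 * b1) * H.hpb
  have d2 : p2 * p2 + b2 * b2 + n2 * n2 = 1 := by
    rw [H.hn2]
    linear_combination (b0 ^ 2 + b1 ^ 2) * H.hpp + (1 - p2 ^ 2) * H.hbb
      - (p0 * b0 + p1 * b1 - p2 * b2) * H.hpb
  have d01 : p0 * p1 + b0 * b1 + n0 * n1 = 0 := by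
    rw [H.hn0, H.hn1]
    linear_combination (p1 * b0 + p0 * b1) * H.hpb - p0 * p1 * H.hbb - b0 * b1 * H.hpp
  have d02 : p0 * p2 + b0 * b2 + n0 * n2 = 0 := by
    rw [H.hn0, H.hn2]
    linear_combination (p2 * b0 + p0 * b2) * H.hpb - p0 * p2 * H.hbb - b0 * b2 * H.hpp
  have d12 : p1 * p2 + b1 * b2 + n1 * n2 = 0 := by
    rw [H.hn1, H.hn2]
    linear_combination (p2 * b1 + p1 * b2) * H.hpb - p1 * p2 * H.hbb - b1 * b2 * H.hpp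
  refine ⟨?_, ?_, ?_⟩
  · linear_combination -u0 * d0 - u1 * d01 - u2 * d02
  · linear_combination -u0 * d01 - u1 * d1 - u2 * d12
  · linear_combination -u0 * d02 - u1 * d12 - u2 * d2

/-- A vector orthogonal to `c p + s b` is a combination of `-s p + c b` and `n`. -/
theorem Frame.decomp (H : Frame c s p0 p1 p2 b0 b1 b2 n0 n1 n2) {u0 u1 u2 : ℝ}
    (hu : (c * p0 + s * b0) * u0 + (c * p1 + s * b1) * u1 + (c * p2 + s * b2) * u2 = 0) :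
    ∃ α1 α2 : ℝ, u0 = α1 * (-s * p0 + c * b0) + α2 * n0 ∧
      u1 = α1 * (-s * p1 + c * b1) + α2 * n1 ∧ u2 = α1 * (-s * p2 + c * b2) + α2 * n2 := by
  obtain ⟨k0, k1, k2⟩ := H.complete u0 u1 u2
  refine ⟨-s * (p0 * u0 + p1 * u1 + p2 * u2) + c * (b0 * u0 + b1 * u1 + b2 * u2),
    n0 * u0 + n1 * u1 + n2 * u2, ?_, ?_, ?_⟩
  · have hcs := H.hcs
    linear_combination k0 + (c * p0 + s * b0) * hu
      - ((p0 * u0 + p1 * u1 + p2 * u2) * p0 + (b0 * u0 + b1 * u1 + b2 * u2) * b0) * hcs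
  · have hcs := H.hcs
    linear_combination k1 + (c * p1 + s * b1) * hu
      - ((p0 * u0 + p1 * u1 + p2 * u2) * p1 + (b0 * u0 + b1 * u1 + b2 * u2) * b1) * hcs
  · have hcs := H.hcs
    linear_combination k2 + (c * p2 + s * b2) * hu
      - ((p0 * u0 + p1 * u1 + p2 * u2) * p2 + (b0 * u0 + b1 * u1 + b2 * u2) * b2) * hcs

end complete

theorem Kills.swap {a t t' x0 x1 x2 y0 y1 y2 u0 u1 u2 v0 v1 v2 : ℝ}
    (K : Kills a t t' x0 x1 x2 y0 y1 y2 u0 u1 u2 v0 v1 v2) :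
    Kills a t' t y0 y1 y2 x0 x1 x2 v0 v1 v2 u0 u1 u2 where
  k0 := by linear_combination K.k0
  k2 := by linear_combination K.k2
  k1 := by
    have h := K.k1
    rw [← h]
    have e : (t' : ℂ) * wc y0 y1 ^ 4 + t * wc x0 x1 ^ 4
      + 4 * wc y0 y1 ^ 3 * wc v0 v1 + 4 * wc x0 x1 ^ 3 * wc u0 u1 =
      (t : ℂ) * wc x0 x1 ^ 4 + t' * wc y0 y1 ^ 4
      + 4 * wc x0 x1 ^ 3 * wc u0 u1 + 4 * wc y0 y1 ^ 3 * wc v0 v1 := by ring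
    rw [e]
    ring
  k3 := by linear_combination K.k3
  k4 := by
    have h := K.k4
    have e : (t' : ℂ) * (wc y0 y1 ^ 5 * y2) + t * (wc x0 x1 ^ 5 * x2)
      + (5 * wc y0 y1 ^ 4 * wc v0 v1 * y2 + wc y0 y1 ^ 5 * v2)
      + (5 * wc x0 x1 ^ 4 * wc u0 u1 * x2 + wc x0 x1 ^ 5 * u2) =
      (t : ℂ) * (wc x0 x1 ^ 5 * x2) + t' * (wc y0 y1 ^ 5 * y2)
      + (5 * wc x0 x1 ^ 4 * wc u0 u1 * x2 + wc x0 x1 ^ 5 * u2)
      + (5 * wc y0 y1 ^ 4 * wc v0 v1 * y2 + wc y0 y1 ^ 5 * v2) := by ring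
    rw [e]
    linear_combination h

theorem kills_trivial_of_nonneg {a : ℝ}
    (hgood : ∀ (A B ζ : ℂ) (C d : ℝ) (h : ℂ), Bad a A B ζ C d h → d = 0 ∧ h = 0)
    {t t' x0 x1 x2 y0 y1 y2 u0 u1 u2 v0 v1 v2 : ℝ}
    (hx : x0 ^ 2 + x1 ^ 2 + x2 ^ 2 = 1) (hy : y0 ^ 2 + y1 ^ 2 + y2 ^ 2 = 1)
    (hne : ¬ (x0 = y0 ∧ x1 = y1 ∧ x2 = y2)) (hne' : ¬ (x0 = -y0 ∧ x1 = -y1 ∧ x2 = -y2))
    (hu : x0 * u0 + x1 * u1 + x2 * u2 = 0) (hv : y0 * v0 + y1 * v1 + y2 * v2 = 0)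
    (hpos : 0 ≤ y0 * x1 - y1 * x0)
    (K : Kills a t t' x0 x1 x2 y0 y1 y2 u0 u1 u2 v0 v1 v2) :
    (t = 0 ∧ t' = 0) ∧ (u0 = 0 ∧ u1 = 0 ∧ u2 = 0) ∧ (v0 = 0 ∧ v1 = 0 ∧ v2 = 0) := by
  have hdd : 0 < (x0 - y0) ^ 2 + (x1 - y1) ^ 2 + (x2 - y2) ^ 2 := by
    by_contra hcon
    have h0 : (x0 - y0) ^ 2 = 0 := by
      linarith [sq_nonneg (x0 - y0), sq_nonneg (x1 - y1), sq_nonneg (x2 - y2)]
    have h1 : (x1 - y1) ^ 2 = 0 := by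
      linarith [sq_nonneg (x0 - y0), sq_nonneg (x1 - y1), sq_nonneg (x2 - y2)]
    have h2 : (x2 - y2) ^ 2 = 0 := by
      linarith [sq_nonneg (x0 - y0), sq_nonneg (x1 - y1), sq_nonneg (x2 - y2)]
    exact hne ⟨sub_eq_zero.1 (pow_eq_zero_iff (two_ne_zero) |>.1 h0),
      sub_eq_zero.1 (pow_eq_zero_iff (two_ne_zero) |>.1 h1),
      sub_eq_zero.1 (pow_eq_zero_iff (two_ne_zero) |>.1 h2)⟩
  have hss : 0 < (x0 + y0) ^ 2 + (x1 + y1) ^ 2 + (x2 + y2) ^ 2 := by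
    by_contra hcon
    have h0 : (x0 + y0) ^ 2 = 0 := by
      linarith [sq_nonneg (x0 + y0), sq_nonneg (x1 + y1), sq_nonneg (x2 + y2)]
    have h1 : (x1 + y1) ^ 2 = 0 := by
      linarith [sq_nonneg (x0 + y0), sq_nonneg (x1 + y1), sq_nonneg (x2 + y2)]
    have h2 : (x2 + y2) ^ 2 = 0 := by
      linarith [sq_nonneg (x0 + y0), sq_nonneg (x1 + y1), sq_nonneg (x2 + y2)]
    exact hne' ⟨eq_neg_of_add_eq_zero_left (pow_eq_zero_iff (two_ne_zero) |>.1 h0),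
      eq_neg_of_add_eq_zero_left (pow_eq_zero_iff (two_ne_zero) |>.1 h1),
      eq_neg_of_add_eq_zero_left (pow_eq_zero_iff (two_ne_zero) |>.1 h2)⟩
  obtain ⟨c, hc, hc2⟩ : ∃ c : ℝ, 0 < c ∧ 4 * c ^ 2 =
      (x0 + y0) ^ 2 + (x1 + y1) ^ 2 + (x2 + y2) ^ 2 := by
    refine ⟨Real.sqrt ((x0 + y0) ^ 2 + (x1 + y1) ^ 2 + (x2 + y2) ^ 2) / 2,
      by positivity, ?_⟩
    rw [div_pow, Real.sq_sqrt hss.le]
    ring
  obtain ⟨s, hs, hs2⟩ : ∃ s : ℝ, 0 < s ∧ 4 * s ^ 2 =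
      (x0 - y0) ^ 2 + (x1 - y1) ^ 2 + (x2 - y2) ^ 2 := by
    refine ⟨Real.sqrt ((x0 - y0) ^ 2 + (x1 - y1) ^ 2 + (x2 - y2) ^ 2) / 2,
      by positivity, ?_⟩
    rw [div_pow, Real.sq_sqrt hdd.le]
    ring
  obtain ⟨p0, hp0⟩ : ∃ p, p = (x0 + y0) / (2 * c) := ⟨_, rfl⟩
  obtain ⟨p1, hp1⟩ : ∃ p, p = (x1 + y1) / (2 * c) := ⟨_, rfl⟩
  obtain ⟨p2, hp2⟩ : ∃ p, p = (x2 + y2) / (2 * c) := ⟨_, rfl⟩
  obtain ⟨b0, hb0⟩ : ∃ p, p = (x0 - y0) / (2 * s) := ⟨_, rfl⟩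
  obtain ⟨b1, hb1⟩ : ∃ p, p = (x1 - y1) / (2 * s) := ⟨_, rfl⟩
  obtain ⟨b2, hb2⟩ : ∃ p, p = (x2 - y2) / (2 * s) := ⟨_, rfl⟩
  rw [eq_div_iff (by positivity)] at hp0 hp1 hp2 hb0 hb1 hb2
  have hx0 : x0 = c * p0 + s * b0 := by linear_combination -hp0 / 2 - hb0 / 2
  have hx1 : x1 = c * p1 + s * b1 := by linear_combination -hp1 / 2 - hb1 / 2
  have hx2 : x2 = c * p2 + s * b2 := by linear_combination -hp2 / 2 - hb2 / 2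
  have hy0 : y0 = c * p0 - s * b0 := by linear_combination -hp0 / 2 + hb0 / 2
  have hy1 : y1 = c * p1 - s * b1 := by linear_combination -hp1 / 2 + hb1 / 2
  have hy2 : y2 = c * p2 - s * b2 := by linear_combination -hp2 / 2 + hb2 / 2
  have hcs : c ^ 2 + s ^ 2 = 1 := by linear_combination hc2 / 4 + hs2 / 4 + hx / 2 + hy / 2
  have hpp : p0 ^ 2 + p1 ^ 2 + p2 ^ 2 = 1 := by
    have h1 : c ^ 2 * (p0 ^ 2 + p1 ^ 2 + p2 ^ 2 - 1) = 0 := by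
      rw [← hp0, ← hp1, ← hp2] at hc2
      linear_combination -hc2 / 4
    exact sub_eq_zero.1 ((mul_eq_zero.1 h1).resolve_left (by positivity))
  have hbb : b0 ^ 2 + b1 ^ 2 + b2 ^ 2 = 1 := by
    have h1 : s ^ 2 * (b0 ^ 2 + b1 ^ 2 + b2 ^ 2 - 1) = 0 := by
      rw [← hb0, ← hb1, ← hb2] at hs2
      linear_combination -hs2 / 4
    exact sub_eq_zero.1 ((mul_eq_zero.1 h1).resolve_left (by positivity))
  have hpb : p0 * b0 + p1 * b1 + p2 * b2 = 0 := by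
    have h1 : (c * s) * (p0 * b0 + p1 * b1 + p2 * b2) = 0 := by
      have h2 : (p0 * (2 * c)) * (b0 * (2 * s)) + (p1 * (2 * c)) * (b1 * (2 * s)) +
        (p2 * (2 * c)) * (b2 * (2 * s)) = 0 := by
        rw [hp0, hp1, hp2, hb0, hb1, hb2]
        linear_combination hx - hy
      linear_combination h2 / 4
    exact (mul_eq_zero.1 h1).resolve_left (by positivity)
  have H : Frame c s p0 p1 p2 b0 b1 b2 (p1 * b2 - p2 * b1) (p2 * b0 - p0 * b2)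
      (p0 * b1 - p1 * b0) := ⟨hcs, hpp, hbb, hpb, rfl, rfl, rfl⟩
  have hn2 : 0 ≤ p0 * b1 - p1 * b0 := by
    have h1 : y0 * x1 - y1 * x0 = (2 * c * s) * (p0 * b1 - p1 * b0) := by
      rw [hx0, hx1, hy0, hy1]; ring
    rw [h1] at hpos
    exact nonneg_of_mul_nonneg_right hpos (by positivity)
  obtain ⟨α1, α2, hu0, hu1, hu2⟩ := H.decomp (u0 := u0) (u1 := u1) (u2 := u2) (by
    rw [← hx0, ← hx1, ← hx2]; exact hu)
  obtain ⟨β1, β2, hv0, hv1, hv2⟩ : ∃ β1 β2 : ℝ,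
      v0 = β1 * (s * p0 + c * b0) + β2 * (p1 * b2 - p2 * b1) ∧
      v1 = β1 * (s * p1 + c * b1) + β2 * (p2 * b0 - p0 * b2) ∧
      v2 = β1 * (s * p2 + c * b2) + β2 * (p0 * b1 - p1 * b0) := by
    have H' : Frame c (-s) p0 p1 p2 b0 b1 b2 (p1 * b2 - p2 * b1) (p2 * b0 - p0 * b2)
      (p0 * b1 - p1 * b0) := ⟨by rw [neg_sq]; exact hcs, hpp, hbb, hpb, rfl, rfl, rfl⟩
    obtain ⟨β1, β2, h0, h1, h2⟩ := H'.decomp (u0 := v0) (u1 := v1) (u2 := v2) (by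
      have e0 : c * p0 + -s * b0 = y0 := by rw [hy0]; ring
      have e1 : c * p1 + -s * b1 = y1 := by rw [hy1]; ring
      have e2 : c * p2 + -s * b2 = y2 := by rw [hy2]; ring
      rw [e0, e1, e2]; exact hv)
    exact ⟨β1, β2, by rw [h0]; ring, by rw [h1]; ring, by rw [h2]; ring⟩
  have hbad := bad_of_frame H hn2 hx0 hx1 hx2 hy0 hy1 hy2 hu0 hu1 hu2 hv0 hv1 hv2 K
  obtain ⟨hd, hh⟩ := hgood _ _ _ _ _ _ hbad
  have hre := congrArg Complex.re hh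
  have him := congrArg Complex.im hh
  simp only [wc, Complex.add_re, Complex.add_im, Complex.ofReal_re, Complex.ofReal_im,
    Complex.mul_re, Complex.mul_im, Complex.I_re, Complex.I_im, mul_zero, mul_one, sub_zero,
    add_zero, zero_add, Complex.zero_re, Complex.zero_im] at hre him
  obtain ⟨r1, r2, r3, r4, r5, r6⟩ := frame_trivial H hc hs hx0 hx1 hx2 hy0 hy1 hy2 hu0 hu1 hu2
    hv0 hv1 hv2 K.k0 K.k2 hd hre him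
  rw [r3, r4] at hu0 hu1 hu2
  rw [r5, r6] at hv0 hv1 hv2
  refine ⟨⟨r1, r2⟩, ⟨?_, ?_, ?_⟩, ⟨?_, ?_, ?_⟩⟩
  · rw [hu0]; ring
  · rw [hu1]; ring
  · rw [hu2]; ring
  · rw [hv0]; ring
  · rw [hv1]; ring
  · rw [hv2]; ring

theorem kills_trivial {a : ℝ}
    (hgood : ∀ (A B ζ : ℂ) (C d : ℝ) (h : ℂ), Bad a A B ζ C d h → d = 0 ∧ h = 0)
    {t t' x0 x1 x2 y0 y1 y2 u0 u1 u2 v0 v1 v2 : ℝ}
    (hx : x0 ^ 2 + x1 ^ 2 + x2 ^ 2 = 1) (hy : y0 ^ 2 + y1 ^ 2 + y2 ^ 2 = 1)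
    (hne : ¬ (x0 = y0 ∧ x1 = y1 ∧ x2 = y2)) (hne' : ¬ (x0 = -y0 ∧ x1 = -y1 ∧ x2 = -y2))
    (hu : x0 * u0 + x1 * u1 + x2 * u2 = 0) (hv : y0 * v0 + y1 * v1 + y2 * v2 = 0)
    (K : Kills a t t' x0 x1 x2 y0 y1 y2 u0 u1 u2 v0 v1 v2) :
    (t = 0 ∧ t' = 0) ∧ (u0 = 0 ∧ u1 = 0 ∧ u2 = 0) ∧ (v0 = 0 ∧ v1 = 0 ∧ v2 = 0) := by
  rcases le_total 0 (y0 * x1 - y1 * x0) with hpos | hneg
  · exact kills_trivial_of_nonneg hgood hx hy hne hne' hu hv hpos K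
  · have h := kills_trivial_of_nonneg hgood hy hx (fun h => hne ⟨h.1.symm, h.2.1.symm, h.2.2.symm⟩)
      (fun h => hne' ⟨by rw [h.1]; ring, by rw [h.2.1]; ring, by rw [h.2.2]; ring⟩) hv hu
      (by linarith) K.swap
    exact ⟨⟨h.1.2, h.1.1⟩, h.2.2, h.2.1⟩

end Pool.Agent.TotallySkew.RP2
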