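import Pool.Agent.TotallySkew.RP2Core

/-!
Homogeneity and the two limiting cases of the equations in `RP2Core`.
-/

open ComplexConjugate

namespace Pool.Agent.TotallySkew.RP2

/-! ### Homogeneity -/

section smul

variable (r : ℝ) (A B ζ h N t6 t4 t2 v5 v3 v1 z m5 m3 m1 e : ℂ) (C d ε k : ℝ)

theorem mu_smul : mu A B ζ (r * h) = r * mu A B ζ h := by
  simp [mu, mul_assoc]

theorem eta_smul : eta A B (r * h) = r * eta A B h := by
  simp only [eta, map_mul, Complex.conj_ofReal]; ring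

theorem nu_smul : nu A B ζ (r * h) = r * nu A B ζ h := by
  simp only [nu, mu_smul, eta_smul]; push_cast; ring

theorem ep_smul : ep A B ζ (r * h) = r * ep A B ζ h := by
  simp only [ep, mu_smul]; ring

theorem ee_smul : ee A B ζ (r * h) = r * ee A B ζ h := by
  simp only [ee, eta_smul]; ring

theorem tau4_smul : tau4 C (r * d) (r * ε) (r * e) = r * tau4 C d ε e := by
  simp only [tau4, Complex.re_ofReal_mul, Complex.im_ofReal_mul]; push_cast; ring

theorem tau6_smul : tau6 C (r * d) (r * ε) (r * e) = r * tau6 C d ε e := by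
  simp only [tau6, Complex.re_ofReal_mul, Complex.im_ofReal_mul]; push_cast; ring

theorem nu3_smul : nu3 C (r * v1) = r * nu3 C v1 := by
  simp only [nu3, map_mul, Complex.conj_ofReal]; ring

theorem nu5_smul : nu5 C (r * v1) = r * nu5 C v1 := by
  simp only [nu5, map_mul, Complex.conj_ofReal]; ring

theorem form4_smul : form4 A B N (r * t4) (r * t2) (r * ε) (r * v3) (r * v1) =
    r * form4 A B N t4 t2 ε v3 v1 := by
  simp only [form4, map_mul, Complex.conj_ofReal]; push_cast; ring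

theorem form31_smul : form31 A B N k (r * t4) (r * t2) (r * ε) (r * v3) (r * v1) z (r * m3)
    (r * m1) = r * form31 A B N k t4 t2 ε v3 v1 z m3 m1 := by
  simp only [form31, map_mul, Complex.conj_ofReal]; push_cast; ring

theorem form51_smul : form51 A B N k (r * t6) (r * t4) (r * t2) (r * ε) (r * v5) (r * v3)
    (r * v1) z (r * m5) (r * m3) (r * m1) =
    r * form51 A B N k t6 t4 t2 ε v5 v3 v1 z m5 m3 m1 := by
  simp only [form51, map_mul, Complex.conj_ofReal]; push_cast; ring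

theorem form31_smul' : form31 A B N k t4 t2 ε v3 v1 (r * z) (r * m3) (r * m1) =
    r * form31 A B N k t4 t2 ε v3 v1 z m3 m1 := by
  simp only [form31, map_mul, Complex.conj_ofReal]; ring

theorem form51_smul' : form51 A B N k t6 t4 t2 ε v5 v3 v1 (r * z) (r * m5) (r * m3) (r * m1) =
    r * form51 A B N k t6 t4 t2 ε v5 v3 v1 z m5 m3 m1 := by
  simp only [form51, map_mul, Complex.conj_ofReal]; ring

theorem form4_smul' : form4 (r * z) (conj (r * z)) N t4 t2 ε v3 v1 =
    r ^ 2 * (r ^ 2 * form4 z (conj z) 0 t4 t2 ε 0 0 + r * form4 z (conj z) N 0 0 0 v3 v1) := by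
  simp only [form4, map_mul, Complex.conj_ofReal, map_zero]; push_cast; ring

theorem Dw4_smul : Dw4 A B ζ C (r * d) (r * h) = r * Dw4 A B ζ C d h := by
  simp only [Dw4, ep_smul, ee_smul, nu_smul, tau4_smul, nu3_smul]
  rw [← form4_smul]
  congr 1
  ring

theorem Dz4_smul : Dz4 A B ζ C (r * d) (r * h) = r * Dz4 A B ζ C d h := by
  simp only [Dz4, ep_smul, ee_smul, nu_smul, tau4_smul, nu3_smul]
  rw [← form4_smul]
  congr 1
  ring

theorem Dw3z_smul : Dw3z A B ζ C (r * d) (r * h) = r * Dw3z A B ζ C d h := by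
  simp only [Dw3z, ep_smul, ee_smul, nu_smul, tau4_smul, nu3_smul]
  rw [← form31_smul]
  congr 1
  ring

theorem Dw5z_smul : Dw5z A B ζ C (r * d) (r * h) = r * Dw5z A B ζ C d h := by
  simp only [Dw5z, ep_smul, ee_smul, nu_smul, tau4_smul, tau6_smul, nu3_smul, nu5_smul]
  rw [← form51_smul]
  congr 1
  ring

theorem Bad.smul {a : ℝ} (hb : Bad a A B ζ C d h) : Bad a A B ζ C (r * d) (r * h) where
  rel := hb.rel
  nrm := hb.nrm
  ord := hb.ord
  hC := hb.hC
  e1 := by
    rw [Dw4_smul, map_mul, Complex.conj_ofReal]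
    linear_combination (r : ℂ) * hb.e1
  e3 := by rw [Dw3z_smul, hb.e3, mul_zero]
  e4 := by
    rw [Dz4_smul, Dw5z_smul, Complex.re_ofReal_mul, Complex.im_ofReal_mul]
    linear_combination r * hb.e4

end smul

/-! ### The first limiting case -/

section limit1

variable {A B ζ : ℂ} {C d : ℝ}

theorem mu_zero : mu A B ζ 0 = 0 := by simp [mu]
theorem eta_zero : eta A B 0 = 0 := by simp [eta]
theorem nu_zero : nu A B ζ 0 = 0 := by simp [nu, mu_zero, eta_zero]
theorem ep_zero : ep A B ζ 0 = 0 := by simp [ep, mu_zero]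
theorem ee_zero : ee A B ζ 0 = 0 := by simp [ee, eta_zero]
theorem nu3_zero : nu3 C 0 = 0 := by simp [nu3]
theorem nu5_zero : nu5 C 0 = 0 := by simp [nu5]
theorem tau4_zero : tau4 C d 0 0 = 8 * d * Complex.I := by
  simp [tau4]; ring
theorem tau6_zero : tau6 C d 0 0 = 32 * C * d * Complex.I := by
  simp [tau6]; ring

theorem conj_eq_sub (w : ℂ) : conj w = w - 2 * w.im * Complex.I := by
  apply Complex.ext
  · simp
  · simp; ring

theorem B_ne_zero (rel : A * conj B = -ζ ^ 2)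
    (nrm : Complex.normSq A + Complex.normSq B + 2 * Complex.normSq ζ = 4)
    (ord : Complex.normSq A ≤ Complex.normSq B) : B ≠ 0 := by
  rintro rfl
  have hA : Complex.normSq A = 0 := le_antisymm (by simpa using ord) (Complex.normSq_nonneg _)
  have hζ : ζ = 0 := by simpa using rel
  rw [hζ, hA] at nrm
  norm_num at nrm

theorem zeta_eq_zero (rel : A * conj B = -ζ ^ 2)
    (nrm : Complex.normSq A + Complex.normSq B + 2 * Complex.normSq ζ = 4)
    (ord : Complex.normSq A ≤ Complex.normSq B) (hd : d ≠ 0)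
    (e3 : Dw3z A B ζ C d 0 = 0) (e4 : (Dz4 A B ζ C d 0).re = 0) : ζ = 0 := by
  have hB := B_ne_zero rel nrm ord
  have hdC : (d : ℂ) ≠ 0 := by exact_mod_cast hd
  have hI : Complex.I ≠ 0 := Complex.I_ne_zero
  have f3 : B ^ 3 * conj ζ = A ^ 3 * ζ := by
    simp only [Dw3z, ep_zero, ee_zero, nu_zero, nu3_zero, tau4_zero, form31, map_mul, map_zero,
      Complex.conj_I, Complex.conj_ofReal, mul_zero, add_zero, map_ofNat] at e3
    have h : (d : ℂ) * Complex.I * (B ^ 3 * conj ζ - A ^ 3 * ζ) = 0 := by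
      push_cast at e3
      linear_combination 2 * e3
    rcases mul_eq_zero.1 h with h | h
    · exact absurd h (mul_ne_zero hdC hI)
    · exact sub_eq_zero.1 h
  have f4 : (ζ ^ 4).im = 0 := by
    have h : Dz4 A B ζ C d 0 = ((d * (ζ ^ 4).im : ℝ) : ℂ) := by
      have hc : conj (ζ ^ 4) = ζ ^ 4 - 2 * (ζ ^ 4).im * Complex.I := conj_eq_sub _
      rw [map_pow] at hc
      simp only [Dz4, ep_zero, ee_zero, nu_zero, nu3_zero, tau4_zero, form4, map_mul, map_zero,
        Complex.conj_I, Complex.conj_ofReal, mul_zero, add_zero, map_ofNat, hc]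
      push_cast
      linear_combination (-(d : ℂ) * (ζ ^ 4).im) * Complex.I_sq
    rw [h, Complex.ofReal_re] at e4
    exact (mul_eq_zero.1 e4).resolve_left hd
  have f5 : ζ ^ 4 = ((ζ ^ 4).re : ℂ) := by
    apply Complex.ext <;> simp [f4]
  have f6 : ((Complex.normSq B ^ 3 * Complex.normSq ζ + (ζ ^ 4).re ^ 2 : ℝ) : ℂ) = 0 := by
    push_cast
    rw [← f5, Complex.normSq_eq_conj_mul_self, Complex.normSq_eq_conj_mul_self]
    have h1 : (A * conj B) ^ 3 = -ζ ^ 6 := by rw [rel]; ring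
    linear_combination (conj B ^ 3 * ζ) * f3 + ζ ^ 2 * h1
  have f7 : Complex.normSq B ^ 3 * Complex.normSq ζ + (ζ ^ 4).re ^ 2 = 0 := by
    exact_mod_cast f6
  have hBpos : 0 < Complex.normSq B := Complex.normSq_pos.2 hB
  have f8 : Complex.normSq B ^ 3 * Complex.normSq ζ = 0 := by
    have h1 : 0 ≤ Complex.normSq B ^ 3 * Complex.normSq ζ :=
      mul_nonneg (by positivity) (Complex.normSq_nonneg _)
    nlinarith [sq_nonneg (ζ ^ 4).re]
  rcases mul_eq_zero.1 f8 with h | h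
  · exact absurd h (by positivity)
  · exact Complex.normSq_eq_zero.1 h

end limit1

/-! ### The second limiting case -/

/-- `h / a` -/
noncomputable def hp (A B ζ : ℂ) (C d : ℝ) (h : ℂ) : ℂ := -conj (Dw4 A B ζ C d h)

/-- `ν / r` -/
noncomputable def mm (α : ℝ) (A B ζ : ℂ) (C d : ℝ) (h : ℂ) : ℂ :=
  α * nu A B ζ (hp A B ζ C d h)

/-- `D (w³ z) / r` -/
noncomputable def S3 (r α : ℝ) (ω A B : ℂ) (C d : ℝ) (h : ℂ) : ℂ :=
  form31 A B (nw A B (r * ω)) (n3 A B)
    (tau4 C d (ep A B (r * ω) h) (ee A B (r * ω) h)) (2 * ee A B (r * ω) h)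
    (ep A B (r * ω) h) (nu3 C (nu A B (r * ω) h)) (nu A B (r * ω) h) ω
    (nu3 C (mm α A B (r * ω) C d h)) (mm α A B (r * ω) C d h)

/-- `D (w⁵ z) / r` -/
noncomputable def S5 (r α : ℝ) (ω A B : ℂ) (C d : ℝ) (h : ℂ) : ℂ :=
  form51 A B (nw A B (r * ω)) (n3 A B) (tau6 C d (ep A B (r * ω) h) (ee A B (r * ω) h))
    (tau4 C d (ep A B (r * ω) h) (ee A B (r * ω) h)) (2 * ee A B (r * ω) h)
    (ep A B (r * ω) h) (nu5 C (nu A B (r * ω) h)) (nu3 C (nu A B (r * ω) h))
    (nu A B (r * ω) h) ω (nu5 C (mm α A B (r * ω) C d h)) (nu3 C (mm α A B (r * ω) C d h))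
    (mm α A B (r * ω) C d h)

/-- `D (z⁴) / r²` -/
noncomputable def S4 (r : ℝ) (ω A B : ℂ) (C d : ℝ) (h : ℂ) : ℂ :=
  r ^ 2 * form4 ω (conj ω) 0 (tau4 C d (ep A B (r * ω) h) (ee A B (r * ω) h))
    (2 * ee A B (r * ω) h) (ep A B (r * ω) h) 0 0
  + r * form4 ω (conj ω) (n3 A B) 0 0 0 (nu3 C (nu A B (r * ω) h)) (nu A B (r * ω) h)

theorem Bad.h_eq {a : ℝ} {A B ζ h : ℂ} {C d : ℝ} (hb : Bad a A B ζ C d h) :
    h = a * hp A B ζ C d h := by
  unfold hp
  linear_combination hb.e1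

theorem Bad.scaled {r α : ℝ} {ω A B h : ℂ} {C d : ℝ} (hr : r ≠ 0)
    (hb : Bad (r * α) A B (r * ω) C d h) :
    S3 r α ω A B C d h = 0 ∧ (S4 r ω A B C d h).re - α * (S5 r α ω A B C d h).im = 0 := by
  have hrC : (r : ℂ) ≠ 0 := by exact_mod_cast hr
  have hnu : nu A B (r * ω) h = r * mm α A B (r * ω) C d h := by
    conv_lhs => rw [hb.h_eq]
    rw [nu_smul, mm]
    push_cast
    ring
  have k3 : Dw3z A B (r * ω) C d h = r * S3 r α ω A B C d h := by
    unfold Dw3z S3
    rw [← form31_smul', ← nu3_smul, ← hnu]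
  have k5 : Dw5z A B (r * ω) C d h = r * S5 r α ω A B C d h := by
    unfold Dw5z S5
    rw [← form51_smul', ← nu3_smul, ← nu5_smul, ← hnu]
  have k4 : Dz4 A B (r * ω) C d h = r ^ 2 * S4 r ω A B C d h := by
    unfold Dz4 S4
    rw [← form4_smul']
  constructor
  · have h3 := hb.e3
    rw [k3] at h3
    exact (mul_eq_zero.1 h3).resolve_left hrC
  · have h4 := hb.e4
    rw [k4, k5] at h4
    have e : ((r : ℂ) ^ 2 * S4 r ω A B C d h).re = r ^ 2 * (S4 r ω A B C d h).re := by
      rw [← Complex.ofReal_pow, Complex.re_ofReal_mul]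
    rw [e, Complex.im_ofReal_mul] at h4
    have h5 : r ^ 2 * ((S4 r ω A B C d h).re - α * (S5 r α ω A B C d h).im) = 0 := by
      linear_combination h4
    exact (mul_eq_zero.1 h5).resolve_left (pow_ne_zero 2 hr)

theorem limit2 {α : ℝ} {ω A B h : ℂ} {C d : ℝ} (hαω : α ^ 2 + Complex.normSq ω = 1)
    (rel : A * conj B = -(((0 : ℝ) : ℂ) * ω) ^ 2)
    (nrm : Complex.normSq A + Complex.normSq B + 2 * Complex.normSq (((0 : ℝ) : ℂ) * ω) = 4)
    (ord : Complex.normSq A ≤ Complex.normSq B) (hd : d ^ 2 + Complex.normSq h = 1)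
    (e1 : h = ((0 * α : ℝ) : ℂ) * hp A B (((0 : ℝ) : ℂ) * ω) C d h)
    (e3 : S3 0 α ω A B C d h = 0)
    (e4 : (S4 0 ω A B C d h).re - α * (S5 0 α ω A B C d h).im = 0) : False := by
  have hh : h = 0 := by simpa using e1
  subst hh
  have hd2 : d ^ 2 = 1 := by simpa using hd
  have hB := B_ne_zero rel nrm ord
  have hA : A = 0 := by
    have h1 : A * conj B = 0 := by rw [rel]; simp
    rcases mul_eq_zero.1 h1 with h | h
    · exact h
    · exact absurd ((map_eq_zero _).1 h) hB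
  subst hA
  have hB4 : Complex.normSq B = 4 := by simpa using nrm
  have hdC : (d : ℂ) ^ 2 = 1 := by exact_mod_cast hd2
  have hn3 : n3 0 B = 1 := by simp [n3, hB4]
  have hnw : nw 0 B 0 = 0 := by simp [nw]
  have hI2 : Complex.I ^ 2 = -1 := Complex.I_sq
  have hhp : hp 0 B 0 C d 0 = d * Complex.I / 2 * conj B ^ 4 := by
    simp only [hp, Dw4, ep_zero, ee_zero, nu_zero, nu3_zero, tau4_zero, hnw, form4, map_mul,
      map_zero, map_pow, map_add, map_div₀, Complex.conj_I, Complex.conj_ofReal, mul_zero,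
      add_zero, map_ofNat, Complex.ofReal_zero]
    ring
  have hmm : mm α 0 B 0 C d 0 = α * d * Complex.I / 4 * conj B ^ 5 := by
    simp only [mm, hhp, nu, hn3, eta, mul_zero, zero_mul, zero_add, Complex.ofReal_one, one_mul]
    ring
  obtain ⟨m, hm⟩ : ∃ m, m = mm α 0 B 0 C d 0 := ⟨_, rfl⟩
  have hz : ((0 : ℝ) : ℂ) * ω = 0 := by simp
  rw [← hm] at hmm
  unfold S3 at e3
  unfold S4 S5 at e4
  rw [hz, ← hm] at e3 e4
  simp only [ep_zero, ee_zero, nu_zero, nu3_zero, nu5_zero, tau4_zero, tau6_zero, hnw, hn3,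
    form31, form51, Complex.ofReal_zero, mul_zero, zero_mul, add_zero, ne_eq, OfNat.ofNat_ne_zero,
    not_false_eq_true, zero_pow, Complex.ofReal_one, zero_div, zero_add, Complex.zero_re] at e3 e4
  -- solve for `ω`
  have hω : conj ω = d * Complex.I * nu3 C m / 4 := by
    have h1 : B ^ 3 * (conj ω * (d * Complex.I) / 2 + nu3 C m / 8) = 0 := by
      linear_combination e3
    have h2 := (mul_eq_zero.1 h1).resolve_left (pow_ne_zero 3 hB)
    linear_combination (-2 * d * Complex.I) * h2 + conj ω * (d ^ 2 * hI2 - hdC)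
  have hω' : ω = -(d * Complex.I * conj (nu3 C m) / 4) := by
    have h1 := congrArg conj hω
    rw [Complex.conj_conj, map_div₀, map_mul, map_mul, Complex.conj_I, Complex.conj_ofReal,
      map_ofNat] at h1
    rw [h1]
    ring
  have hcm : conj m = -(α * d * Complex.I / 4 * B ^ 5) := by
    rw [hmm, map_mul, map_div₀, map_mul, map_mul, map_pow, Complex.conj_conj, Complex.conj_I,
      Complex.conj_ofReal, Complex.conj_ofReal, map_ofNat]
    ring
  have hBB : B ^ 5 * conj B ^ 5 = 1024 := by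
    rw [← mul_pow, Complex.mul_conj, hB4]
    norm_num
  have hF : (B ^ 5 * conj ω * (32 * C * d * Complex.I) + B ^ 5 * ω * (8 * d * Complex.I)) / 64 +
      1 / 32 * (B ^ 5 * nu5 C m) =
      ((α * d / 64 : ℝ) : ℂ) * (-(((2 * C ^ 2 + 1) * 1024 : ℝ) : ℂ)
        - ((2 * C : ℝ) : ℂ) * B ^ 10) * Complex.I := by
    have hdI : (d : ℂ) ^ 2 * Complex.I ^ 2 = -1 := by rw [hdC, hI2]; ring
    have step : (B ^ 5 * conj ω * (32 * C * d * Complex.I) +
        B ^ 5 * ω * (8 * d * Complex.I)) / 64 + 1 / 32 * (B ^ 5 * nu5 C m) =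
        B ^ 5 / 16 * (-(2 * C ^ 2 + 1) * m + 2 * C * conj m) := by
      rw [hω, hω']
      simp only [nu3, nu5, map_sub, map_mul, Complex.conj_conj, Complex.conj_ofReal, map_ofNat]
      linear_combination (B ^ 5 * (8 * C * (2 * C * m - conj m) - 2 * (2 * C * conj m - m)) / 64)
        * hdI
    rw [step, hcm, hmm]
    push_cast
    linear_combination (-(2 * C ^ 2 + 1) * α * d * Complex.I / 64) * hBB
  rw [hF] at e4
  have hR : |(B ^ 10).re| ≤ 1024 := by
    refine (Complex.abs_re_le_norm _).trans (le_of_eq ?_)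
    have h1 : ‖B‖ ^ 2 = 4 := by rw [← Complex.normSq_eq_norm_sq, hB4]
    rw [norm_pow]
    calc ‖B‖ ^ 10 = (‖B‖ ^ 2) ^ 5 := by ring
      _ = 1024 := by rw [h1]; norm_num
  have him : (((α * d / 64 : ℝ) : ℂ) * (-(((2 * C ^ 2 + 1) * 1024 : ℝ) : ℂ)
        - ((2 * C : ℝ) : ℂ) * B ^ 10) * Complex.I).im =
      α * d / 64 * (-((2 * C ^ 2 + 1) * 1024) - 2 * C * (B ^ 10).re) := by
    rw [Complex.mul_I_im, Complex.re_ofReal_mul, Complex.sub_re, Complex.neg_re,
      Complex.ofReal_re, Complex.re_ofReal_mul]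
  rw [him] at e4
  have hpos : 0 < (2 * C ^ 2 + 1) * 1024 + 2 * C * (B ^ 10).re := by
    have h1 : -(|C| * 1024) ≤ C * (B ^ 10).re := by
      have h2 : |C * (B ^ 10).re| ≤ |C| * 1024 := by
        rw [abs_mul]
        exact mul_le_mul_of_nonneg_left hR (abs_nonneg _)
      exact (abs_le.1 h2).1
    have h3 : |C| ^ 2 = C ^ 2 := sq_abs C
    nlinarith [sq_nonneg (|C| - 1), sq_nonneg |C|, sq_nonneg (2 * |C| - 1)]
  have hd0 : d ≠ 0 := by
    rintro rfl
    norm_num at hd2
  have hα : α = 0 := by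
    have h1 : α * (α * (d / 64 * ((2 * C ^ 2 + 1) * 1024 + 2 * C * (B ^ 10).re))) = 0 := by
      linear_combination e4
    rcases mul_eq_zero.1 h1 with h | h
    · exact h
    · rcases mul_eq_zero.1 h with h | h
      · exact h
      · exact absurd h (by positivity)
  have hm0 : m = 0 := by rw [hmm, hα]; simp
  rw [hm0, nu3_zero, mul_zero, zero_div] at hω
  have hω0 : ω = 0 := (map_eq_zero _).1 hω
  rw [hα, hω0] at hαω
  norm_num at hαω

end Pool.Agent.TotallySkew.RP2
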