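import Pool.Agent.TotallySkew.RP2Defs
import Pool.Agent.TotallySkew.Cover

/-!
The projective plane is a smooth manifold and the projection from the sphere is a local
diffeomorphism.
-/

open scoped Manifold ContDiff
open Metric Module

namespace Pool.Agent.TotallySkew

/-- The projection with domain the sphere as a subtype. -/
def pr (x : sphere (0 : EuclideanSpace ℝ (Fin 3)) 1) : RP2 := proj x

theorem pr_surjective : Function.Surjective pr := proj_surjective

theorem pr_eq_iff {x y : sphere (0 : EuclideanSpace ℝ (Fin 3)) 1} :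
    pr x = pr y ↔ x = y ∨ x = -y := by
  refine (proj_eq_iff' (x := x) (y := y)).trans (or_congr ?_ ?_)
  · exact Subtype.ext_iff.symm
  · exact ⟨fun h => Subtype.ext h, fun h => congrArg Subtype.val h⟩

theorem pr_neg (x : sphere (0 : EuclideanSpace ℝ (Fin 3)) 1) : pr (-x) = pr x :=
  pr_eq_iff.2 (Or.inr rfl)

section

local instance : Fact (finrank ℝ (EuclideanSpace ℝ (Fin 3)) = 2 + 1) :=
  ⟨finrank_euclideanSpace_fin⟩

theorem hasDeck_pr : HasDeck (EuclideanSpace ℝ (Fin 2)) pr := by
  intro x x' h
  rcases pr_eq_iff.1 h with h | h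
  · exact ⟨id, contMDiff_id, h, fun y => rfl⟩
  · refine ⟨fun y => -y, contMDiff_neg_sphere, ?_, fun y => pr_neg y⟩
    rw [h]
    exact neg_neg x'

end

theorem isLocalHomeomorph_pr : IsLocalHomeomorph pr := isLocalHomeomorph_proj

instance : IsManifold (𝓡 2) ∞ RP2 :=
  isManifold_of_deck hasDeck_pr isLocalHomeomorph_pr
    (pr_surjective.hasRightInverse.choose_spec)

theorem isLocalDiffeomorph_pr : IsLocalDiffeomorph (𝓡 2) (𝓡 2) ∞ pr :=
  isLocalDiffeomorph_proj hasDeck_pr isLocalHomeomorph_pr
    (pr_surjective.hasRightInverse.choose_spec)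

instance : CompactSpace S2 :=
  inferInstanceAs (CompactSpace (sphere (0 : EuclideanSpace ℝ (Fin 3)) 1))

instance : CompactSpace RP2 := inferInstanceAs (CompactSpace (Quotient antipodal))

end Pool.Agent.TotallySkew
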