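import Pool.Agent.TotallySkew.RP2Manifold
import Pool.Agent.TotallySkew.RP2Kills

/-!
The totally skew embedding of the projective plane in `ℝ⁷`.
-/

open scoped Manifold ContDiff ComplexConjugate
open Metric Module

namespace Pool.Agent.TotallySkew.RP2

/-- Euclidean three-space. -/
abbrev E3 : Type := EuclideanSpace ℝ (Fin 3)

/-- The complex coordinate `x₀ + i x₁`. -/
noncomputable def wL : E3 →L[ℝ] ℂ :=
  Complex.ofRealCLM.comp (EuclideanSpace.proj 0) +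
    (ContinuousLinearMap.mul ℝ ℂ Complex.I).comp (Complex.ofRealCLM.comp (EuclideanSpace.proj 1))

/-- The coordinate `x₂`. -/
noncomputable def zL : E3 →L[ℝ] ℝ := EuclideanSpace.proj 2

theorem wL_apply (x : E3) : wL x = wc (x 0) (x 1) := by
  simp [wL, wc, mul_comm]

theorem zL_apply (x : E3) : zL x = x 2 := rfl

/-- The function `1 - 3 z²`. -/
noncomputable def f0 (x : E3) : ℝ := 1 - 3 * zL x ^ 2

/-- The function `w²`. -/
noncomputable def f2 (x : E3) : ℂ := wL x ^ 2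

/-- The function `w z + a w̄⁴`. -/
noncomputable def f1 (a : ℝ) (x : E3) : ℂ := wL x * zL x + a * conj (wL x) ^ 4

/-- The function `w³ z`. -/
noncomputable def f3 (x : E3) : ℂ := wL x ^ 3 * zL x

/-- The function `z⁴ - a Im (w⁵ z)`. -/
noncomputable def f4 (a : ℝ) (x : E3) : ℝ := zL x ^ 4 - a * (wL x ^ 5 * zL x).im

/-- The positive function `1 - 3 z² + 3 (z⁴ - a Im (w⁵ z))`. -/
noncomputable def gg (a : ℝ) (x : E3) : ℝ := f0 x + 3 * f4 a x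

/-- The numerators. -/
noncomputable def FF (a : ℝ) (x : E3) : ℝ × ℂ × ℂ × ℂ := (f0 x, f2 x, f1 a x, f3 x)

/-- The map in homogeneous form. -/
noncomputable def psi (a : ℝ) (x : E3) : ℝ × ℂ × ℂ × ℂ := (gg a x)⁻¹ • FF a x

theorem hasFDerivAt_w (x : E3) : HasFDerivAt (fun y => wL y) wL x := wL.hasFDerivAt

theorem hasFDerivAt_z (x : E3) : HasFDerivAt (fun y => zL y) zL x := zL.hasFDerivAt

theorem hasFDerivAt_zC (x : E3) :
    HasFDerivAt (fun y => ((zL y : ℝ) : ℂ)) (Complex.ofRealCLM.comp zL) x :=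
  (Complex.ofRealCLM.comp zL).hasFDerivAt

theorem hasFDerivAt_wc (x : E3) :
    HasFDerivAt (fun y => conj (wL y)) (Complex.conjCLE.toContinuousLinearMap.comp wL) x :=
  (Complex.conjCLE.toContinuousLinearMap.comp wL).hasFDerivAt

theorem f0_deriv (x : E3) : ∃ D : E3 →L[ℝ] ℝ, HasFDerivAt f0 D x ∧
    ∀ u, D u = -6 * zL x * zL u := by
  refine ⟨_, (((hasFDerivAt_z x).pow 2).const_mul 3).const_sub 1, fun u => ?_⟩
  simp
  ring

theorem f2_deriv (x : E3) : ∃ D : E3 →L[ℝ] ℂ, HasFDerivAt f2 D x ∧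
    ∀ u, D u = 2 * wL x * wL u := by
  refine ⟨_, (hasFDerivAt_w x).pow 2, fun u => ?_⟩
  simp

theorem f1_deriv (a : ℝ) (x : E3) : ∃ D : E3 →L[ℝ] ℂ, HasFDerivAt (f1 a) D x ∧
    ∀ u, D u = wL u * zL x + wL x * zL u + a * (4 * conj (wL x) ^ 3 * conj (wL u)) := by
  refine ⟨_, ((hasFDerivAt_w x).mul (hasFDerivAt_zC x)).add
    (((hasFDerivAt_wc x).pow 4).const_mul (a : ℂ)), fun u => ?_⟩
  simp
  ring

theorem f3_deriv (x : E3) : ∃ D : E3 →L[ℝ] ℂ, HasFDerivAt f3 D x ∧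
    ∀ u, D u = 3 * wL x ^ 2 * wL u * zL x + wL x ^ 3 * zL u := by
  refine ⟨_, ((hasFDerivAt_w x).pow 3).mul (hasFDerivAt_zC x), fun u => ?_⟩
  simp
  ring

theorem f5_deriv (x : E3) : ∃ D : E3 →L[ℝ] ℂ,
    HasFDerivAt (fun y => wL y ^ 5 * (zL y : ℂ)) D x ∧
    ∀ u, D u = 5 * wL x ^ 4 * wL u * zL x + wL x ^ 5 * zL u := by
  refine ⟨_, ((hasFDerivAt_w x).pow 5).mul (hasFDerivAt_zC x), fun u => ?_⟩
  simp
  ring

theorem f4_deriv (a : ℝ) (x : E3) : ∃ D : E3 →L[ℝ] ℝ, HasFDerivAt (f4 a) D x ∧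
    ∀ u, D u = 4 * zL x ^ 3 * zL u -
      a * (5 * wL x ^ 4 * wL u * zL x + wL x ^ 5 * zL u).im := by
  obtain ⟨D, hD, hD'⟩ := f5_deriv x
  have h2 := (Complex.imCLM.hasFDerivAt.comp x hD).const_mul a
  refine ⟨_, ((hasFDerivAt_z x).pow 4).sub h2, fun u => ?_⟩
  rw [← hD']
  simp

theorem gg_deriv (a : ℝ) (x : E3) : ∃ D : E3 →L[ℝ] ℝ, HasFDerivAt (gg a) D x ∧
    ∀ u, D u = -6 * zL x * zL u + 3 * (4 * zL x ^ 3 * zL u -
      a * (5 * wL x ^ 4 * wL u * zL x + wL x ^ 5 * zL u).im) := by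
  obtain ⟨D, hD, hD'⟩ := f0_deriv x
  obtain ⟨D4, hD4, hD4'⟩ := f4_deriv a x
  refine ⟨_, hD.add (hD4.const_mul 3), fun u => ?_⟩
  rw [← hD', ← hD4']
  simp

theorem FF_deriv (a : ℝ) (x : E3) : ∃ D : E3 →L[ℝ] ℝ × ℂ × ℂ × ℂ, HasFDerivAt (FF a) D x ∧
    ∀ u, D u = (-6 * zL x * zL u, 2 * wL x * wL u,
      wL u * zL x + wL x * zL u + a * (4 * conj (wL x) ^ 3 * conj (wL u)),
      3 * wL x ^ 2 * wL u * zL x + wL x ^ 3 * zL u) := by
  obtain ⟨D0, h0, h0'⟩ := f0_deriv x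
  obtain ⟨D2, h2, h2'⟩ := f2_deriv x
  obtain ⟨D1, h1, h1'⟩ := f1_deriv a x
  obtain ⟨D3, h3, h3'⟩ := f3_deriv x
  refine ⟨_, h0.prodMk (h2.prodMk (h1.prodMk h3)), fun u => ?_⟩
  rw [← h0', ← h2', ← h1', ← h3']
  rfl

/-- The function `gg` is positive on the unit sphere for small `a`. -/
theorem gg_pos {a : ℝ} (ha : |a| ≤ 1 / 100) {x : E3}
    (hx : x 0 ^ 2 + x 1 ^ 2 + x 2 ^ 2 = 1) : 0 < gg a x := by
  have hw : ‖wL x‖ ≤ 1 := by
    have h1 : ‖wL x‖ ^ 2 = x 0 ^ 2 + x 1 ^ 2 := by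
      rw [← Complex.normSq_eq_norm_sq, wL_apply]
      simp [wc, Complex.normSq_apply]
      ring
    have h2 : ‖wL x‖ ^ 2 ≤ 1 := by
      rw [h1]
      linarith [sq_nonneg (x 2)]
    exact (sq_le_one_iff₀ (norm_nonneg _)).1 h2
  have hz : |x 2| ≤ 1 := by
    have h2 : |x 2| ^ 2 ≤ 1 := by
      rw [sq_abs]
      linarith [sq_nonneg (x 0), sq_nonneg (x 1)]
    exact (sq_le_one_iff₀ (abs_nonneg _)).1 h2
  have h5 : |(wL x ^ 5 * zL x).im| ≤ 1 := by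
    refine (Complex.abs_im_le_norm _).trans ?_
    rw [norm_mul, norm_pow, zL_apply, Complex.norm_real, Real.norm_eq_abs]
    exact mul_le_one₀ (pow_le_one₀ (norm_nonneg _) hw) (abs_nonneg _) hz
  have h6 : |a * (wL x ^ 5 * zL x).im| ≤ 1 / 100 := by
    rw [abs_mul]
    calc |a| * |(wL x ^ 5 * zL x).im| ≤ 1 / 100 * 1 :=
          mul_le_mul ha h5 (abs_nonneg _) (by norm_num)
      _ = 1 / 100 := by norm_num
  have h7 := (abs_le.1 h6).2
  unfold gg f0 f4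
  rw [zL_apply] at h7 ⊢
  nlinarith [sq_nonneg (x 2 ^ 2 - 1 / 2)]

theorem psi_deriv {a : ℝ} {x : E3} (hg : gg a x ≠ 0) :
    ∃ D : E3 →L[ℝ] ℝ × ℂ × ℂ × ℂ, HasFDerivAt (psi a) D x ∧
    ∀ u, ∃ (DF : ℝ × ℂ × ℂ × ℂ) (DG : ℝ), D u = (gg a x)⁻¹ • DF - ((gg a x ^ 2)⁻¹ * DG) • FF a x ∧
      DF = (-6 * zL x * zL u, 2 * wL x * wL u,
      wL u * zL x + wL x * zL u + a * (4 * conj (wL x) ^ 3 * conj (wL u)),
      3 * wL x ^ 2 * wL u * zL x + wL x ^ 3 * zL u) ∧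
      DG = -6 * zL x * zL u + 3 * (4 * zL x ^ 3 * zL u -
      a * (5 * wL x ^ 4 * wL u * zL x + wL x ^ 5 * zL u).im) := by
  obtain ⟨DF, hF, hF'⟩ := FF_deriv a x
  obtain ⟨DG, hG, hG'⟩ := gg_deriv a x
  have h1 : HasFDerivAt (fun y => (gg a y)⁻¹) _ x := (hasDerivAt_inv hg).comp_hasFDerivAt x hG
  refine ⟨_, h1.smul hF, fun u => ⟨DF u, DG u, ?_, hF' u, hG' u⟩⟩
  simp [sub_eq_add_neg]

/-- The key step: the functional obtained from an affine relation between the tangent planes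
vanishes on `W_a`. -/
theorem kills_of_eq {a t : ℝ} {x y u v : E3} (hgx : gg a x ≠ 0) (hgy : gg a y ≠ 0)
    {DFx DFy : ℝ × ℂ × ℂ × ℂ} {DGx DGy : ℝ}
    (hDFx : DFx = (-6 * zL x * zL u, 2 * wL x * wL u,
      wL u * zL x + wL x * zL u + a * (4 * conj (wL x) ^ 3 * conj (wL u)),
      3 * wL x ^ 2 * wL u * zL x + wL x ^ 3 * zL u))
    (hDGx : DGx = -6 * zL x * zL u + 3 * (4 * zL x ^ 3 * zL u -
      a * (5 * wL x ^ 4 * wL u * zL x + wL x ^ 5 * zL u).im))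
    (hDFy : DFy = (-6 * zL y * zL v, 2 * wL y * wL v,
      wL v * zL y + wL y * zL v + a * (4 * conj (wL y) ^ 3 * conj (wL v)),
      3 * wL y ^ 2 * wL v * zL y + wL y ^ 3 * zL v))
    (hDGy : DGy = -6 * zL y * zL v + 3 * (4 * zL y ^ 3 * zL v -
      a * (5 * wL y ^ 4 * wL v * zL y + wL y ^ 5 * zL v).im))
    (h : t • (psi a x - psi a y) + ((gg a x)⁻¹ • DFx - ((gg a x ^ 2)⁻¹ * DGx) • FF a x)
      + ((gg a y)⁻¹ • DFy - ((gg a y ^ 2)⁻¹ * DGy) • FF a y) = 0) :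
    Kills a (t * (gg a x)⁻¹ - (gg a x ^ 2)⁻¹ * DGx) (-t * (gg a y)⁻¹ - (gg a y ^ 2)⁻¹ * DGy)
      (x 0) (x 1) (x 2) (y 0) (y 1) (y 2)
      ((gg a x)⁻¹ * u 0) ((gg a x)⁻¹ * u 1) ((gg a x)⁻¹ * u 2)
      ((gg a y)⁻¹ * v 0) ((gg a y)⁻¹ * v 1) ((gg a y)⁻¹ * v 2) := by
  obtain ⟨τ, hτ⟩ : ∃ τ, τ = t * (gg a x)⁻¹ - (gg a x ^ 2)⁻¹ * DGx := ⟨_, rfl⟩
  obtain ⟨τ', hτ'⟩ : ∃ τ', τ' = -t * (gg a y)⁻¹ - (gg a y ^ 2)⁻¹ * DGy := ⟨_, rfl⟩
  obtain ⟨p, hp⟩ : ∃ p, p = (gg a x)⁻¹ := ⟨_, rfl⟩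
  obtain ⟨q, hq⟩ : ∃ q, q = (gg a y)⁻¹ := ⟨_, rfl⟩
  have hpx : gg a x * p = 1 := by rw [hp]; exact mul_inv_cancel₀ hgx
  have hqy : gg a y * q = 1 := by rw [hq]; exact mul_inv_cancel₀ hgy
  have hV : τ • FF a x + τ' • FF a y + p • DFx + q • DFy = 0 := by
    rw [← h, hτ, hτ', hp, hq]
    unfold psi
    module
  have hG : τ * gg a x + τ' * gg a y + p * DGx + q * DGy = 0 := by
    have e1 : (gg a x ^ 2)⁻¹ = p ^ 2 := by rw [hp, inv_pow]
    have e2 : (gg a y ^ 2)⁻¹ = q ^ 2 := by rw [hq, inv_pow]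
    rw [hτ, hτ', e1, e2, ← hp, ← hq]
    linear_combination (t - p * DGx) * hpx - (t + q * DGy) * hqy
  rw [← hτ, ← hτ', ← hp, ← hq]
  have c0 := congrArg Prod.fst hV
  have c2 := congrArg (fun z : ℝ × ℂ × ℂ × ℂ => z.2.1) hV
  have c1 := congrArg (fun z : ℝ × ℂ × ℂ × ℂ => z.2.2.1) hV
  have c3 := congrArg (fun z : ℝ × ℂ × ℂ × ℂ => z.2.2.2) hV
  rw [hDFx, hDFy] at c0 c1 c2 c3
  rw [hDGx, hDGy] at hG
  simp only [FF, Prod.fst_add, Prod.snd_add, Prod.smul_fst, Prod.smul_snd, Prod.fst_zero,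
    Prod.snd_zero, smul_eq_mul, Complex.real_smul] at c0 c1 c2 c3
  have wx : wc (x 0) (x 1) = wL x := (wL_apply x).symm
  have wy : wc (y 0) (y 1) = wL y := (wL_apply y).symm
  have wu : wc (p * u 0) (p * u 1) = p * wL u := by
    rw [wL_apply]; simp only [wc]; push_cast; ring
  have wv : wc (q * v 0) (q * v 1) = q * wL v := by
    rw [wL_apply]; simp only [wc]; push_cast; ring
  have zx : x 2 = zL x := rfl
  have zy : y 2 = zL y := rfl
  have zu : u 2 = zL u := rfl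
  have zv : v 2 = zL v := rfl
  rw [zx, zy, zu, zv]
  constructor
  · unfold f0 at c0
    linear_combination c0
  · rw [wx, wy, wu, wv]
    unfold f2 at c2
    linear_combination c2
  · rw [wx, wy, wu, wv]
    unfold f1 at c1
    simp only [map_add, map_mul, map_pow, Complex.conj_ofReal, map_ofNat]
    push_cast
    linear_combination c1
  · rw [wx, wy, wu, wv]
    unfold f3 at c3
    push_cast
    linear_combination c3
  · rw [wx, wy, wu, wv]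
    have e : ((τ : ℂ) * (wL x ^ 5 * zL x) + τ' * (wL y ^ 5 * zL y)
      + (5 * wL x ^ 4 * (p * wL u) * zL x + wL x ^ 5 * ((p * zL u : ℝ) : ℂ))
      + (5 * wL y ^ 4 * (q * wL v) * zL y + wL y ^ 5 * ((q * zL v : ℝ) : ℂ))) =
      (τ : ℂ) * (wL x ^ 5 * zL x) + (τ' : ℂ) * (wL y ^ 5 * zL y)
      + (p : ℂ) * (5 * wL x ^ 4 * wL u * zL x + wL x ^ 5 * zL u)
      + (q : ℂ) * (5 * wL y ^ 4 * wL v * zL y + wL y ^ 5 * zL v) := by
      push_cast; ring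
    rw [e, Complex.add_im, Complex.add_im, Complex.add_im, Complex.im_ofReal_mul,
      Complex.im_ofReal_mul, Complex.im_ofReal_mul, Complex.im_ofReal_mul]
    unfold gg f0 f4 at hG
    unfold f0 at c0
    linear_combination hG / 3 - c0 / 3

/-! ### Smoothness and symmetry -/

theorem contDiff_w : ContDiff ℝ ∞ (fun y => wL y) := wL.contDiff

theorem contDiff_z : ContDiff ℝ ∞ (fun y => zL y) := zL.contDiff

theorem contDiff_zC : ContDiff ℝ ∞ (fun y => ((zL y : ℝ) : ℂ)) :=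
  (Complex.ofRealCLM.comp zL).contDiff

theorem contDiff_wbar : ContDiff ℝ ∞ (fun y => conj (wL y)) :=
  (Complex.conjCLE.toContinuousLinearMap.comp wL).contDiff

theorem contDiff_f0 : ContDiff ℝ ∞ f0 :=
  contDiff_const.sub (contDiff_const.mul (contDiff_z.pow 2))

theorem contDiff_f4 (a : ℝ) : ContDiff ℝ ∞ (f4 a) :=
  (contDiff_z.pow 4).sub (contDiff_const.mul
    (Complex.imCLM.contDiff.comp ((contDiff_w.pow 5).mul contDiff_zC)))

theorem contDiff_gg (a : ℝ) : ContDiff ℝ ∞ (gg a) :=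
  contDiff_f0.add (contDiff_const.mul (contDiff_f4 a))

theorem contDiff_FF (a : ℝ) : ContDiff ℝ ∞ (FF a) :=
  contDiff_f0.prodMk ((contDiff_w.pow 2).prodMk
    (((contDiff_w.mul contDiff_zC).add (contDiff_const.mul (contDiff_wbar.pow 4))).prodMk
      ((contDiff_w.pow 3).mul contDiff_zC)))

theorem contDiffAt_psi {a : ℝ} {x : E3} (hg : gg a x ≠ 0) : ContDiffAt ℝ ∞ (psi a) x :=
  ((contDiff_gg a).contDiffAt.inv hg).smul (contDiff_FF a).contDiffAt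

theorem psi_neg (a : ℝ) (x : E3) : psi a (-x) = psi a x := by
  have h0 : f0 (-x) = f0 x := by simp [f0]
  have h4 : f4 a (-x) = f4 a x := by
    simp only [f4, map_neg, Complex.ofReal_neg]
    have e : (-wL x) ^ 5 * -(zL x : ℂ) = wL x ^ 5 * zL x := by ring
    rw [e]
    ring
  have hF : FF a (-x) = FF a x := by
    simp only [FF, h0, f2, f1, f3, map_neg, Complex.ofReal_neg]
    refine Prod.ext rfl (Prod.ext ?_ (Prod.ext ?_ ?_))
    · ring
    · ring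
    · ring
  rw [psi, psi, hF, gg, gg, h0, h4]

/-! ### The embedding -/

/-- The target as Euclidean space. -/
noncomputable def toE7 : (ℝ × ℂ × ℂ × ℂ) ≃L[ℝ] EuclideanSpace ℝ (Fin 7) :=
  ContinuousLinearEquiv.ofFinrankEq (by
    simp [Complex.finrank_real_complex])

section

local instance : Fact (finrank ℝ (EuclideanSpace ℝ (Fin 3)) = 2 + 1) :=
  ⟨finrank_euclideanSpace_fin⟩

/-- The inclusion of the unit sphere of `ℝ³`. -/
abbrev inc : sphere (0 : EuclideanSpace ℝ (Fin 3)) 1 → E3 := Subtype.val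

theorem inc_mdiff (x : sphere (0 : EuclideanSpace ℝ (Fin 3)) 1) :
    MDifferentiableAt (𝓡 2) 𝓘(ℝ, E3) inc x :=
  (contMDiff_coe_sphere (m := 1) (n := 2) x).mdifferentiableAt one_ne_zero

theorem tangent_orth (x : sphere (0 : EuclideanSpace ℝ (Fin 3)) 1)
    (u : TangentSpace (𝓡 2) x) :
    inc x 0 * (mvfderiv (𝓡 2) inc x u) 0 + inc x 1 * (mvfderiv (𝓡 2) inc x u) 1
    + inc x 2 * (mvfderiv (𝓡 2) inc x u) 2 = 0 := by
  have h : mvfderiv (𝓡 2) inc x u ∈ (mvfderiv (𝓡 2) inc x).range := ⟨u, rfl⟩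
  rw [range_mvfderiv_subtypeVal] at h
  rw [Submodule.mem_orthogonal_singleton_iff_inner_right] at h
  simp only [PiLp.inner_apply, Fin.sum_univ_three, RCLike.inner_apply, conj_trivial] at h
  linarith

theorem unit_norm (x : sphere (0 : EuclideanSpace ℝ (Fin 3)) 1) :
    inc x 0 ^ 2 + inc x 1 ^ 2 + inc x 2 ^ 2 = 1 := by
  have h : ‖inc x‖ ^ 2 = 1 := by simp
  rw [EuclideanSpace.norm_sq_eq, Fin.sum_univ_three] at h
  simpa using h

theorem inc_inj (x : sphere (0 : EuclideanSpace ℝ (Fin 3)) 1) :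
    Function.Injective (mvfderiv (𝓡 2) inc x) :=
  injective_mvfderiv_subtypeVal_sphere x

theorem inc_contMDiff : ContMDiff (𝓡 2) 𝓘(ℝ, E3) ∞ inc := contMDiff_coe_sphere

end

/-- The map on the sphere. -/
noncomputable def bigPhi (a : ℝ) (x : sphere (0 : EuclideanSpace ℝ (Fin 3)) 1) :
    EuclideanSpace ℝ (Fin 7) := toE7 (psi a (inc x))

/-- The map on the projective plane. -/
noncomputable def phi (a : ℝ) : RP2 → EuclideanSpace ℝ (Fin 7) :=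
  Quotient.lift (bigPhi a) (by
    intro x y h
    have h1 : pr x = pr y := Quotient.sound h
    rcases pr_eq_iff.1 h1 with rfl | rfl
    · rfl
    · exact congrArg toE7 (psi_neg a (inc y)))

theorem phi_pr (a : ℝ) (x : sphere (0 : EuclideanSpace ℝ (Fin 3)) 1) :
    phi a (pr x) = bigPhi a x := rfl

theorem bigPhi_contMDiff {a : ℝ} (ha : |a| ≤ 1 / 100) :
    ContMDiff (𝓡 2) 𝓘(ℝ, EuclideanSpace ℝ (Fin 7)) ∞ (bigPhi a) := by
  intro x
  have hg : gg a (inc x) ≠ 0 := (gg_pos ha (unit_norm x)).ne'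
  have h1 : ContDiffAt ℝ ∞ (fun y => toE7 (psi a y)) (inc x) :=
    toE7.contDiff.contDiffAt.comp (inc x) (contDiffAt_psi hg)
  exact ContMDiffAt.comp (g := fun y => toE7 (psi a y)) x h1.contMDiffAt (inc_contMDiff x)

theorem exists_point_ne (q : RP2) : ∃ q' : RP2, q ≠ q' := by
  by_contra hcon
  push Not at hcon
  obtain ⟨e0, he0⟩ : ∃ e : sphere (0 : EuclideanSpace ℝ (Fin 3)) 1,
      e = ⟨EuclideanSpace.single 0 1, by simp⟩ := ⟨_, rfl⟩
  obtain ⟨e1, he1⟩ : ∃ e : sphere (0 : EuclideanSpace ℝ (Fin 3)) 1,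
      e = ⟨EuclideanSpace.single 1 1, by simp⟩ := ⟨_, rfl⟩
  have h : pr e0 = pr e1 := (hcon _).symm.trans (hcon _)
  rcases pr_eq_iff.1 h with h | h
  · have h1 := congrArg (fun z : sphere (0 : EuclideanSpace ℝ (Fin 3)) 1 => inc z 0) h
    simp [he0, he1, inc] at h1
  · have h1 := congrArg (fun z : sphere (0 : EuclideanSpace ℝ (Fin 3)) 1 => inc z 0) h
    simp [he0, he1, inc] at h1

theorem isTotallySkewEmbedding_phi {a : ℝ} (ha : |a| ≤ 1 / 100)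
    (hgood : ∀ (A B ζ : ℂ) (C d : ℝ) (h : ℂ), Bad a A B ζ C d h → d = 0 ∧ h = 0) :
    IsTotallySkewEmbedding (𝓡 2) (phi a) := by
  refine isTotallySkewEmbedding_of_cover isLocalDiffeomorph_pr pr_surjective
    (bigPhi_contMDiff ha) (phi_pr a) exists_point_ne ?_
  intro x y hxy t u v h
  have hgx : 0 < gg a (inc x) := gg_pos ha (unit_norm x)
  have hgy : 0 < gg a (inc y) := gg_pos ha (unit_norm y)
  obtain ⟨Dx, hDx, hDx'⟩ := psi_deriv (a := a) hgx.ne'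
  obtain ⟨Dy, hDy, hDy'⟩ := psi_deriv (a := a) hgy.ne'
  have mx : mvfderiv (𝓡 2) (bigPhi a) x u = toE7 (Dx (mvfderiv (𝓡 2) inc x u)) :=
    mvfderiv_comp_of_hasFDerivAt (ι := inc) (Φ := fun y => toE7 (psi a y))
      (Φ' := (toE7 : (ℝ × ℂ × ℂ × ℂ) →L[ℝ] EuclideanSpace ℝ (Fin 7)).comp Dx)
      (toE7.hasFDerivAt.comp (inc x) hDx) (inc_mdiff x) u
  have my : mvfderiv (𝓡 2) (bigPhi a) y v = toE7 (Dy (mvfderiv (𝓡 2) inc y v)) :=
    mvfderiv_comp_of_hasFDerivAt (ι := inc) (Φ := fun y => toE7 (psi a y))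
      (Φ' := (toE7 : (ℝ × ℂ × ℂ × ℂ) →L[ℝ] EuclideanSpace ℝ (Fin 7)).comp Dy)
      (toE7.hasFDerivAt.comp (inc y) hDy) (inc_mdiff y) v
  obtain ⟨DFx, DGx, ex, hDFx, hDGx⟩ := hDx' (mvfderiv (𝓡 2) inc x u)
  obtain ⟨DFy, DGy, ey, hDFy, hDGy⟩ := hDy' (mvfderiv (𝓡 2) inc y v)
  have h1 : toE7 (t • (psi a (inc x) - psi a (inc y)) + Dx (mvfderiv (𝓡 2) inc x u)
      + Dy (mvfderiv (𝓡 2) inc y v)) = 0 := by
    rw [map_add, map_add, map_smul, map_sub, ← mx, ← my]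
    exact h
  have h2 := (map_eq_zero_iff toE7 toE7.injective).1 h1
  rw [ex, ey] at h2
  have K := kills_of_eq hgx.ne' hgy.ne' hDFx hDGx hDFy hDGy h2
  have hne : ¬ (inc x 0 = inc y 0 ∧ inc x 1 = inc y 1 ∧ inc x 2 = inc y 2) := by
    rintro ⟨h0, h1, h2⟩
    apply hxy
    rw [pr_eq_iff]
    left
    apply Subtype.ext
    ext i
    fin_cases i
    · exact h0
    · exact h1
    · exact h2
  have hne' : ¬ (inc x 0 = -inc y 0 ∧ inc x 1 = -inc y 1 ∧ inc x 2 = -inc y 2) := by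
    rintro ⟨h0, h1, h2⟩
    apply hxy
    rw [pr_eq_iff]
    right
    apply Subtype.ext
    ext i
    fin_cases i
    · exact h0
    · exact h1
    · exact h2
  obtain ⟨⟨hτ, -⟩, ⟨hu0, hu1, hu2⟩, -⟩ := kills_trivial hgood (unit_norm x) (unit_norm y) hne hne'
    (by linear_combination (gg a (inc x))⁻¹ * tangent_orth x u)
    (by linear_combination (gg a (inc y))⁻¹ * tangent_orth y v) K
  have hpx : (gg a (inc x))⁻¹ ≠ 0 := inv_ne_zero hgx.ne'
  have hu : mvfderiv (𝓡 2) inc x u = 0 := by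
    ext i
    fin_cases i
    · exact (mul_eq_zero.1 hu0).resolve_left hpx
    · exact (mul_eq_zero.1 hu1).resolve_left hpx
    · exact (mul_eq_zero.1 hu2).resolve_left hpx
  have hDG0 : DGx = 0 := by
    rw [hDGx, hu]
    simp
  rw [hDG0, mul_zero, sub_zero] at hτ
  refine ⟨(mul_eq_zero.1 hτ).resolve_right hpx, ?_⟩
  apply inc_inj x
  rw [hu, map_zero]

/-- The projective plane has a totally skew embedding in `ℝ⁷`. -/
theorem exists_embedding :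
    ∃ φ : RP2 → EuclideanSpace ℝ (Fin 7), IsTotallySkewEmbedding (𝓡 2) φ := by
  obtain ⟨δ, hδ, hgood⟩ := exists_good
  refine ⟨phi (min δ (1 / 100)), isTotallySkewEmbedding_phi ?_ (hgood _ (by positivity)
    (min_le_left _ _))⟩
  rw [abs_of_pos (by positivity)]
  exact min_le_right _ _

end Pool.Agent.TotallySkew.RP2
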